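import Pool.Agent.Helper74.HypStructMain

set_option autoImplicit false

namespace Pool.Agent.Helper74.HypStruct

open Filter

lemma gp_lower {β : ℝ} (hβ : 0 ≤ β) (x y : ZwrZ) :
    ((- LL β x 1 - LL β y 1 + LL β x y : ℤ) : ℝ) - 3 / 2 ≤
      gromovProduct (wordDist (XX β)) 1 x y := by
  have h := (abs_le.1 (gp_approx (dist_approx hβ) 1 x y)).1
  rw [ht_one] at h
  push_cast at *
  linarith

lemma gp_upper {β : ℝ} (hβ : 0 ≤ β) (x y : ZwrZ) :
    gromovProduct (wordDist (XX β)) 1 x y ≤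
      ((- LL β x 1 - LL β y 1 + LL β x y : ℤ) : ℝ) + 3 / 2 := by
  have h := (abs_le.1 (gp_approx (dist_approx hβ) 1 x y)).2
  rw [ht_one] at h
  push_cast at *
  linarith

/-! ### A loxodromic element -/

lemma ll_tt {β : ℝ} (hβ : 0 ≤ β) (m n : ℤ) : LL β (tt ^ m) (tt ^ n) = min m n := by
  apply le_antisymm
  · have h := ll_mem hβ (tt ^ m) (tt ^ n)
    rw [tt_zpow, tt_zpow] at *
    exact le_min h.1 h.2.1
  · apply le_ll
    rw [tt_zpow, tt_zpow]
    exact ⟨min_le_left _ _, min_le_right _ _, by simpa using dv_zero β _⟩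

lemma loxodromic {β : ℝ} (hβ : 0 ≤ β) : IsLoxodromic (wordDist (XX β)) tt := by
  refine ⟨1, 1, le_rfl, 1, zero_le_one, fun m n => ?_⟩
  rw [smul_eq_mul, smul_eq_mul, mul_one, mul_one, div_one, one_mul]
  have h := abs_le.1 (dist_approx hβ (tt ^ m) (tt ^ n))
  rw [ll_tt hβ, tt_zpow, tt_zpow, ht_el, ht_el] at h
  rw [tt_zpow, tt_zpow]
  have e : ((m + n - 2 * min m n : ℤ) : ℝ) = |(m : ℝ) - n| := by
    rcases le_total m n with hle | hle
    · rw [min_eq_left hle]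
      have : (m : ℝ) ≤ n := by exact_mod_cast hle
      rw [abs_of_nonpos (by linarith)]
      push_cast; ring
    · rw [min_eq_right hle]
      have : (n : ℝ) ≤ m := by exact_mod_cast hle
      rw [abs_of_nonneg (by linarith)]
      push_cast; ring
  rw [e] at h
  constructor <;> linarith [h.1, h.2]

/-! ### The fixed boundary point -/

lemma rel_down {β : ℝ} (hβ : 0 ≤ β) (g h : ZwrZ) :
    Rel (wordDist (XX β)) 1 (fun i => g * tt ^ (-(i : ℤ))) (fun i => h * tt ^ (-(i : ℤ))) := by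
  rw [rel_iff]
  intro M
  obtain ⟨k₀, hk₀, hd⟩ := dv_exists hβ (cf h - cf g) 0
  obtain ⟨N, hN⟩ := exists_nat_ge (M + 3 / 2 + |(ht g : ℝ)| + |(ht h : ℝ)| + |(k₀ : ℝ)|)
  refine ⟨N, fun i j hi hj => ?_⟩
  refine le_trans ?_ (gp_lower hβ _ _)
  set x := g * tt ^ (-(i : ℤ)) with hx
  set y := h * tt ^ (-(j : ℤ)) with hy
  have hxh : ht x = ht g - i := by rw [hx, tt_zpow, ht_mul, ht_el]; ring
  have hyh : ht y = ht h - j := by rw [hy, tt_zpow, ht_mul, ht_el]; ring
  have hxc : cf y - cf x = cf h - cf g := by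
    ext l
    rw [hx, hy, tt_zpow, tt_zpow]
    simp
  have h1 : LL β x 1 ≤ ht g - i := hxh ▸ (ll_mem hβ x 1).1
  have h2 : LL β y 1 ≤ ht h - j := hyh ▸ (ll_mem hβ y 1).1
  have h3 : min (min (ht g - i) (ht h - j)) k₀ ≤ LL β x y := by
    apply le_ll
    refine ⟨?_, ?_, ?_⟩
    · rw [hxh]; omega
    · rw [hyh]; omega
    · rw [hxc]; exact dv_mono (min_le_right _ _) hd
  have h4 : min (min (j - ht h) (i - ht g)) (i - ht g + (j - ht h) + k₀) ≤
      - LL β x 1 - LL β y 1 + LL β x y := by omega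
  have h5 : ((min (min (j - ht h) (i - ht g)) (i - ht g + (j - ht h) + k₀) : ℤ) : ℝ) ≤
      ((- LL β x 1 - LL β y 1 + LL β x y : ℤ) : ℝ) := by exact_mod_cast h4
  refine le_trans ?_ (sub_le_sub_right h5 _)
  have hi' : (N : ℝ) ≤ i := by exact_mod_cast hi
  have hj' : (N : ℝ) ≤ j := by exact_mod_cast hj
  have a1 := neg_abs_le (k₀ : ℝ)
  have a2 := le_abs_self (ht g : ℝ)
  have a3 := le_abs_self (ht h : ℝ)
  have a4 := abs_nonneg (k₀ : ℝ)
  have a5 := abs_nonneg (ht g : ℝ)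
  have a6 := abs_nonneg (ht h : ℝ)
  have hN0 : (0 : ℝ) ≤ N := Nat.cast_nonneg N
  push_cast
  rw [le_sub_iff_add_le, le_min_iff, le_min_iff]
  refine ⟨⟨?_, ?_⟩, ?_⟩
  · linarith
  · linarith
  · have hi0 : (0 : ℝ) ≤ i := Nat.cast_nonneg i
    by_cases hM : 0 ≤ M + 3 / 2
    · linarith
    · linarith

lemma fixes {β : ℝ} (hβ : 0 ≤ β) :
    ∃ ξ : Boundary (wordDist (XX β)) (1 : ZwrZ), FixesBoundaryPoint (wordDist (XX β)) ZwrZ 1 ξ := by
  have h0 : ConvergesToInfinity (wordDist (XX β)) 1 (fun i : ℕ => (1 : ZwrZ) * tt ^ (-(i : ℤ))) :=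
    rel_down hβ 1 1
  refine ⟨Boundary.mk _ _ _ h0, fun g => ?_⟩
  have h1 : ConvergesToInfinity (wordDist (XX β)) 1
      (fun i : ℕ => g • ((1 : ZwrZ) * tt ^ (-(i : ℤ)))) := by
    have := rel_down hβ g g
    show Rel (wordDist (XX β)) 1 (fun i : ℕ => g • ((1 : ZwrZ) * tt ^ (-(i : ℤ))))
      (fun i : ℕ => g • ((1 : ZwrZ) * tt ^ (-(i : ℤ))))
    simpa only [smul_eq_mul, one_mul] using this
  refine ⟨_, h0, h1, rfl, ?_⟩
  apply mk_eq_of_rel
  have := rel_down hβ g 1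
  simpa only [smul_eq_mul, one_mul] using this

/-! ### The limit set -/

/-- a ray towards the boundary point given by `c` -/
def ray (c : ℤ →₀ ℤ) (i : ℕ) : ZwrZ := el c i

lemma rel_ray {β : ℝ} (hβ : 0 ≤ β) (c : ℤ →₀ ℤ) :
    Rel (wordDist (XX β)) 1 (ray c) (ray c) := by
  rw [rel_iff]
  intro M
  obtain ⟨N, hN⟩ := exists_nat_ge (M + 3 / 2)
  refine ⟨N, fun i j hi hj => ?_⟩
  refine le_trans ?_ (gp_lower hβ _ _)
  have h1 : LL β (ray c i) 1 ≤ 0 := (ll_mem hβ (ray c i) 1).2.1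
  have h2 : LL β (ray c j) 1 ≤ 0 := (ll_mem hβ (ray c j) 1).2.1
  have h3 : min (i : ℤ) j ≤ LL β (ray c i) (ray c j) := by
    apply le_ll
    refine ⟨min_le_left _ _, min_le_right _ _, ?_⟩
    have : cf (ray c j) - cf (ray c i) = 0 := by simp [ray]
    rw [this]
    exact dv_zero _ _
  have h4 : (N : ℤ) ≤ - LL β (ray c i) 1 - LL β (ray c j) 1 + LL β (ray c i) (ray c j) := by omega
  have h5 : ((N : ℤ) : ℝ) ≤
      ((- LL β (ray c i) 1 - LL β (ray c j) 1 + LL β (ray c i) (ray c j) : ℤ) : ℝ) := by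
    exact_mod_cast h4
  push_cast at *
  linarith

lemma not_rel_ray {β : ℝ} (hβ : 0 ≤ β) {c c' : ℤ →₀ ℤ} (h : c 0 ≠ c' 0) :
    ¬ Rel (wordDist (XX β)) 1 (ray c) (ray c') := by
  rw [rel_iff]
  intro hrel
  obtain ⟨k₁, hk₁, hd₁⟩ := dv_exists hβ (-c) 0
  obtain ⟨k₂, hk₂, hd₂⟩ := dv_exists hβ (-c') 0
  obtain ⟨N, hN⟩ := hrel ((- k₁ - k₂ : ℤ) + β * (padicValInt 2 (c' 0 - c 0) : ℝ) + 2)
  have h1 := hN N N le_rfl le_rfl
  have h2 := gp_upper hβ (ray c N) (ray c' N)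
  have h3 : k₁ ≤ LL β (ray c N) 1 := by
    apply le_ll
    refine ⟨?_, hk₁, ?_⟩
    · show k₁ ≤ (N : ℤ); omega
    · have : cf 1 - cf (ray c N) = -c := by simp [ray]
      rw [this]; exact hd₁
  have h4 : k₂ ≤ LL β (ray c' N) 1 := by
    apply le_ll
    refine ⟨?_, hk₂, ?_⟩
    · show k₂ ≤ (N : ℤ); omega
    · have : cf 1 - cf (ray c' N) = -c' := by simp [ray]
      rw [this]; exact hd₂
  have h5 := (ll_mem hβ (ray c N) (ray c' N)).2.2 0 (by
    simp only [ray, cf_el, Finsupp.sub_apply]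
    exact sub_ne_zero.2 (Ne.symm h))
  simp only [ray, cf_el, Finsupp.sub_apply, Int.cast_zero, zero_add] at h5
  have h3' : (k₁ : ℝ) ≤ LL β (ray c N) 1 := by exact_mod_cast h3
  have h4' : (k₂ : ℝ) ≤ LL β (ray c' N) 1 := by exact_mod_cast h4
  simp only [ray] at *
  push_cast at *
  linarith

lemma wordDist_symm {β : ℝ} (hβ : 0 ≤ β) (x y : ZwrZ) :
    wordDist (XX β) x y = wordDist (XX β) y x := by
  unfold wordDist
  have e1 := wordLength_inv_le (generates hβ) (x⁻¹ * y)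
  have e2 := wordLength_inv_le (generates hβ) (y⁻¹ * x)
  rw [mul_inv_rev, inv_inv] at e1 e2
  rw [le_antisymm e1 e2]

lemma limitSet_infinite {β : ℝ} (hβ : 0 ≤ β) :
    (limitSet (wordDist (XX β)) ZwrZ (1 : ZwrZ)).Infinite := by
  have hc : ∀ c : ℤ →₀ ℤ, ConvergesToInfinity (wordDist (XX β)) (1 : ZwrZ)
      (fun i => ray c i • (1 : ZwrZ)) := by
    intro c
    have := rel_ray hβ c
    show Rel (wordDist (XX β)) 1 (fun i => ray c i • (1 : ZwrZ)) (fun i => ray c i • (1 : ZwrZ))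
    simpa only [smul_eq_mul, mul_one] using this
  apply Set.infinite_of_injective_forall_mem (f := fun k : ℕ =>
    Boundary.mk (wordDist (XX β)) (1 : ZwrZ) (fun i => ray (Finsupp.single 0 (k : ℤ)) i • (1 : ZwrZ))
      (hc _))
  · intro k l hkl
    by_contra hne
    have h1 := rel_of_mk_eq (wordDist_symm hβ) (hyperbolic hβ) _ _ hkl
    simp only [smul_eq_mul, mul_one] at h1
    exact not_rel_ray hβ (c := Finsupp.single 0 (k : ℤ)) (c' := Finsupp.single 0 (l : ℤ))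
      (by simpa using hne) h1
  · intro k
    exact ⟨1, ray (Finsupp.single 0 (k : ℤ)), hc _, rfl⟩

/-- the quasi-parabolic structure attached to `β` -/
def AA (β : ℝ) (hβ : 0 ≤ β) : QPGeneratingSet ZwrZ where
  X := XX β
  generates := generates hβ
  hyperbolic := hyperbolic hβ
  quasiParabolic := ⟨⟨tt, loxodromic hβ⟩, fixes hβ, limitSet_infinite hβ⟩

lemma dominated_of_le {β β' : ℝ} (h : β ≤ β') : Dominated (XX β') (XX β) := by
  refine ⟨1, fun y hy => ?_⟩
  have hy' : y ∈ XX β' := by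
    rcases hy with ⟨h1, h2⟩ | h1
    · left
      refine ⟨h1, fun j hj => ?_⟩
      have := h2 j hj
      have h3 : β * (padicValInt 2 (cf y j) : ℝ) ≤ β' * (padicValInt 2 (cf y j) : ℝ) :=
        mul_le_mul_of_nonneg_right h (Nat.cast_nonneg _)
      linarith
    · exact Or.inr h1
  simpa using wordLength_le (X := XX β') [y] (by simp [hy'])

lemma padic_two_pow (m : ℕ) : padicValInt 2 ((2 : ℤ) ^ m) = m := by
  have : padicValInt 2 ((2 : ℤ) ^ m) = padicValNat 2 (2 ^ m) := by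
    rw [padicValInt, Int.natAbs_pow]
    rfl
  rw [this, padicValNat.prime_pow]

lemma not_dominated {β β' : ℝ} (hβ : 0 ≤ β) (h : β < β') : ¬ Dominated (XX β) (XX β') := by
  rintro ⟨C, hC⟩
  obtain ⟨m, hm⟩ := exists_nat_gt ((1 + (C : ℝ)) / (β' - β))
  have hpos : 0 < β' - β := by linarith
  rw [div_lt_iff₀ hpos] at hm
  set y : ZwrZ := el (Finsupp.single (-⌊β' * m⌋) ((2 : ℤ) ^ m)) 0 with hy
  have hyX : y ∈ XX β' := by
    left
    refine ⟨rfl, fun j hj => ?_⟩
    rw [hy, cf_el, Finsupp.single_apply] at hj ⊢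
    by_cases hj' : -⌊β' * m⌋ = j
    · rw [if_pos hj'] at hj ⊢
      subst hj'
      rw [padic_two_pow]
      have := Int.floor_le (β' * m)
      push_cast
      linarith
    · rw [if_neg hj'] at hj
      exact absurd rfl hj
  obtain ⟨l, hl1, hl2, hl3⟩ := exists_list_of_generates (generates hβ) y
  obtain ⟨k, hk1, hk2⟩ := lower hβ 1 l hl2
  rw [hl3, one_mul] at hk1 hk2
  rw [hl1] at hk2
  have h1 := hC y hyX
  have h2 := hk1.2.2 (-⌊β' * m⌋) (by
    rw [cf_one, sub_zero, hy, cf_el, Finsupp.single_eq_same]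
    positivity)
  rw [cf_one, sub_zero, hy, cf_el, Finsupp.single_eq_same, padic_two_pow] at h2
  have h3 : ht y = 0 := rfl
  rw [ht_one, h3] at hk2
  have h4 : -(C : ℤ) ≤ 2 * k := by omega
  have h5 : -(C : ℝ) ≤ 2 * k := by exact_mod_cast h4
  have h6 := Int.lt_floor_add_one (β' * m)
  push_cast at h2
  have hC0 : (0 : ℝ) ≤ C := Nat.cast_nonneg C
  nlinarith

/-- the chain -/
noncomputable def chainMap (r : ℝ) : QuasiParabolicStructures ZwrZ :=
  toAntisymmetrization (· ≤ ·) (AA (Real.exp r) (Real.exp_pos r).le)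

lemma chainMap_le_iff (r s : ℝ) : chainMap r ≤ chainMap s ↔ s ≤ r := by
  unfold chainMap
  rw [toAntisymmetrization_le_toAntisymmetrization_iff]
  constructor
  · intro h
    by_contra hlt
    rw [not_le] at hlt
    exact not_dominated (Real.exp_pos r).le (Real.exp_lt_exp.2 hlt) h
  · intro h
    exact dominated_of_le (Real.exp_le_exp.2 h)

lemma chainMap_injective : Function.Injective chainMap := by
  intro r s h
  exact le_antisymm ((chainMap_le_iff s r).1 h.ge) ((chainMap_le_iff r s).1 h.le)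

theorem exists_chain : ∃ C : Set (QuasiParabolicStructures ZwrZ),
    IsChain (· ≤ ·) C ∧ ¬ C.Countable := by
  refine ⟨chainMap '' Set.univ, ?_, ?_⟩
  · rintro _ ⟨r, _, rfl⟩ _ ⟨s, _, rfl⟩ _
    simp only [chainMap_le_iff]
    exact le_total s r
  · intro hc
    exact Cardinal.not_countable_real
      (Set.countable_of_injective_of_countable_image chainMap_injective.injOn hc)

end Pool.Agent.Helper74.HypStruct
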