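import Mathlib

set_option autoImplicit false

/-!
Hyperbolic structures of quasi-parabolic type on a group, and the group `ℤ wr ℤ`.
-/

namespace Pool.Agent.Helper74.HypStruct

open Filter

/-! ### Hyperbolic spaces, their boundary, quasi-parabolic actions -/

section Space

variable {S : Type} (d : S → S → ℝ)

/-- The Gromov product of `x` and `y` based at `w`. -/
noncomputable def gromovProduct (w x y : S) : ℝ := (d x w + d y w - d x y) / 2

/-- Gromov hyperbolicity (four point condition). -/
def IsHyperbolic : Prop :=
  ∃ δ : ℝ, ∀ w x y z : S,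
    min (gromovProduct d w x y) (gromovProduct d w y z) - δ ≤ gromovProduct d w x z

/-- The sequence `u` converges to infinity. -/
def ConvergesToInfinity (w : S) (u : ℕ → S) : Prop :=
  Tendsto (fun p : ℕ × ℕ => gromovProduct d w (u p.1) (u p.2)) atTop atTop

/-- The Gromov boundary: sequences converging to infinity, where `u` and `v` are identified when
the Gromov products of `u i` and `v j` tend to infinity. -/
def Boundary (w : S) : Type :=
  Quot (fun u v : {u : ℕ → S // ConvergesToInfinity d w u} =>
    Tendsto (fun p : ℕ × ℕ => gromovProduct d w (u.1 p.1) (v.1 p.2)) atTop atTop)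

/-- The point of the boundary given by a sequence converging to infinity. -/
def Boundary.mk (w : S) (u : ℕ → S) (hu : ConvergesToInfinity d w u) : Boundary d w :=
  Quot.mk _ ⟨u, hu⟩

variable (G : Type) [Group G] [MulAction G S]

/-- `g` is loxodromic: `n ↦ g ^ n • x` is a quasi-isometric embedding of `ℤ`. -/
def IsLoxodromic {G : Type} [Group G] [MulAction G S] (g : G) : Prop :=
  ∃ x : S, ∃ K : ℝ, 1 ≤ K ∧ ∃ C : ℝ, 0 ≤ C ∧ ∀ m n : ℤ,
    |(m : ℝ) - n| / K - C ≤ d (g ^ m • x) (g ^ n • x) ∧
      d (g ^ m • x) (g ^ n • x) ≤ K * |(m : ℝ) - n| + C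

/-- The group `G` fixes the boundary point `ξ`: for every `g`, some sequence `u` representing `ξ`
is such that `g • u` also represents `ξ`. -/
def FixesBoundaryPoint (w : S) (ξ : Boundary d w) : Prop :=
  ∀ g : G, ∃ (u : ℕ → S) (hu : ConvergesToInfinity d w u)
    (hgu : ConvergesToInfinity d w (fun i => g • u i)),
      Boundary.mk d w u hu = ξ ∧ Boundary.mk d w (fun i => g • u i) hgu = ξ

/-- The limit set of `G`: the boundary points represented by sequences `γ i • x` in an orbit. -/
def limitSet (w : S) : Set (Boundary d w) :=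
  {ξ | ∃ (x : S) (γ : ℕ → G) (h : ConvergesToInfinity d w (fun i => γ i • x)),
    Boundary.mk d w (fun i => γ i • x) h = ξ}

/-- The action of `G` on the hyperbolic space `(S, d)` is quasi-parabolic. -/
def IsQuasiParabolic (w : S) : Prop :=
  (∃ g : G, IsLoxodromic d g) ∧ (∃ ξ : Boundary d w, FixesBoundaryPoint d G w ξ) ∧
    (limitSet d G w).Infinite

end Space

/-! ### Word metrics and hyperbolic structures -/

section Group

variable {G : Type} [Group G]

/-- Word length of `g` with respect to `X`. -/
noncomputable def wordLength (X : Set G) (g : G) : ℕ :=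
  sInf {n | ∃ l : List G, l.length = n ∧ (∀ x ∈ l, x ∈ X ∨ x⁻¹ ∈ X) ∧ l.prod = g}

/-- The word metric: the path metric of the Cayley graph `Γ(G, X)` on its vertex set `G`. -/
noncomputable def wordDist (X : Set G) (g h : G) : ℝ := wordLength X (g⁻¹ * h)

variable (G) in
/-- Generating sets `X` of `G` whose Cayley graph is hyperbolic and on whose Cayley graph the
action of `G` by left translations is quasi-parabolic. -/
structure QPGeneratingSet : Type where
  X : Set G
  generates : Subgroup.closure X = ⊤
  hyperbolic : IsHyperbolic (wordDist X)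
  quasiParabolic : IsQuasiParabolic (wordDist X) G (1 : G)

/-- `X ≼ Y` when the elements of `Y` have bounded length with respect to `X`. -/
def Dominated (X Y : Set G) : Prop := ∃ C : ℕ, ∀ y ∈ Y, wordLength X y ≤ C

lemma exists_list_of_mem_closure (X : Set G) (g : G) (hg : g ∈ Subgroup.closure X) :
    ∃ l : List G, (∀ x ∈ l, x ∈ X ∨ x⁻¹ ∈ X) ∧ l.prod = g := by
  have hg' : g ∈ (Subgroup.closure X).toSubmonoid := hg
  rw [Subgroup.closure_toSubmonoid] at hg'
  obtain ⟨l, h1, h2⟩ := Submonoid.exists_list_of_mem_closure hg'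
  exact ⟨l, fun x hx => by simpa using h1 x hx, h2⟩

lemma exists_list_of_generates {X : Set G} (hX : Subgroup.closure X = ⊤) (g : G) :
    ∃ l : List G, l.length = wordLength X g ∧ (∀ x ∈ l, x ∈ X ∨ x⁻¹ ∈ X) ∧ l.prod = g := by
  obtain ⟨l, h1, h2⟩ := exists_list_of_mem_closure X g (by rw [hX]; exact Subgroup.mem_top _)
  exact Nat.sInf_mem (s := {n | ∃ l : List G, l.length = n ∧ (∀ x ∈ l, x ∈ X ∨ x⁻¹ ∈ X) ∧ l.prod = g})
    ⟨l.length, l, rfl, h1, h2⟩

lemma wordLength_le {X : Set G} (l : List G) (hl : ∀ x ∈ l, x ∈ X ∨ x⁻¹ ∈ X) :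
    wordLength X l.prod ≤ l.length :=
  Nat.sInf_le ⟨l, rfl, hl, rfl⟩

lemma wordLength_one (X : Set G) : wordLength X 1 = 0 :=
  Nat.le_zero.1 (by simpa using wordLength_le (X := X) [] (by simp))

lemma wordLength_mul_le {X : Set G} (hX : Subgroup.closure X = ⊤) (g h : G) :
    wordLength X (g * h) ≤ wordLength X g + wordLength X h := by
  obtain ⟨l, h1, h2, rfl⟩ := exists_list_of_generates hX g
  obtain ⟨l', h1', h2', rfl⟩ := exists_list_of_generates hX h
  rw [← List.prod_append]
  refine (wordLength_le (l ++ l') ?_).trans ?_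
  · intro x hx
    rcases List.mem_append.1 hx with hx | hx
    · exact h2 x hx
    · exact h2' x hx
  · rw [List.length_append, h1, h1']

lemma wordLength_inv_le {X : Set G} (hX : Subgroup.closure X = ⊤) (g : G) :
    wordLength X g⁻¹ ≤ wordLength X g := by
  obtain ⟨l, h1, h2, rfl⟩ := exists_list_of_generates hX g
  rw [List.prod_inv_reverse]
  refine (wordLength_le _ ?_).trans ?_
  · intro x hx
    simp only [List.mem_reverse, List.mem_map] at hx
    obtain ⟨y, hy, rfl⟩ := hx
    rcases h2 y hy with h | h
    · right; simpa using h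
    · left; exact h
  · simp [h1]

lemma Dominated.trans {X Y Z : Set G} (hX : Subgroup.closure X = ⊤)
    (hY : Subgroup.closure Y = ⊤) (h₁ : Dominated X Y) (h₂ : Dominated Y Z) : Dominated X Z := by
  obtain ⟨C, hC⟩ := h₁
  obtain ⟨D, hD⟩ := h₂
  have key : ∀ l : List G, (∀ x ∈ l, x ∈ Y ∨ x⁻¹ ∈ Y) → wordLength X l.prod ≤ l.length * C := by
    intro l
    induction l with
    | nil => intro _; simp [wordLength_one]
    | cons a l ih =>
      intro hl
      rw [List.prod_cons, List.length_cons]
      have h1 := ih (fun x hx => hl x (List.mem_cons_of_mem _ hx))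
      have h2 : wordLength X a ≤ C := by
        rcases hl a List.mem_cons_self with h | h
        · exact hC a h
        · have := wordLength_inv_le hX a⁻¹
          rw [inv_inv] at this
          exact this.trans (hC _ h)
      have h3 := wordLength_mul_le hX a l.prod
      calc wordLength X (a * l.prod) ≤ wordLength X a + wordLength X l.prod := h3
        _ ≤ C + l.length * C := by omega
        _ = (l.length + 1) * C := by ring
  refine ⟨D * C, fun z hz => ?_⟩
  obtain ⟨l, h1, h2, rfl⟩ := exists_list_of_generates hY z
  refine (key l h2).trans ?_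
  rw [h1]
  exact Nat.mul_le_mul_right _ (hD _ hz)

/-- The preorder `≼` on generating sets of quasi-parabolic type. -/
instance : Preorder (QPGeneratingSet G) where
  le A B := Dominated A.X B.X
  le_refl A := ⟨1, fun y hy => by
    simpa using wordLength_le (X := A.X) [y] (by simp [hy])⟩
  le_trans A B C h₁ h₂ := Dominated.trans A.generates B.generates h₁ h₂

variable (G) in
/-- The poset of quasi-parabolic hyperbolic structures on `G`. -/
abbrev QuasiParabolicStructures : Type := Antisymmetrization (QPGeneratingSet G) (· ≤ ·)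

end Group

/-! ### The group `ℤ wr ℤ` -/

/-- The shift action of `ℤ` on the direct sum of copies of `ℤ` indexed by `ℤ`. -/
noncomputable def shift : Multiplicative ℤ →* MulAut (Multiplicative (ℤ →₀ ℤ)) where
  toFun n := AddEquiv.toMultiplicative (Finsupp.domCongr (Equiv.addRight (Multiplicative.toAdd n)))
  map_one' := by
    ext f j
    change (Multiplicative.toAdd f) (j - 0) = (Multiplicative.toAdd f) j
    rw [sub_zero]
  map_mul' m n := by
    ext f j
    change (Multiplicative.toAdd f) (j - (Multiplicative.toAdd m + Multiplicative.toAdd n)) =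
      (Multiplicative.toAdd f) (j - Multiplicative.toAdd m - Multiplicative.toAdd n)
    rw [sub_sub]

/-- The restricted wreath product `ℤ wr ℤ`. -/
abbrev ZwrZ : Type := Multiplicative (ℤ →₀ ℤ) ⋊[shift] Multiplicative ℤ

end Pool.Agent.Helper74.HypStruct
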