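import Pool.Agent.Helper74.HypStructProof

set_option autoImplicit false

namespace Pool.Agent.Helper74.HypStruct

open Filter

/-! ### Coordinates on `ℤ wr ℤ` -/

/-- the lamp configuration -/
def cf (g : ZwrZ) : ℤ →₀ ℤ := Multiplicative.toAdd g.left

/-- the position of the cursor -/
def ht (g : ZwrZ) : ℤ := Multiplicative.toAdd g.right

/-- element with given coordinates -/
def el (a : ℤ →₀ ℤ) (n : ℤ) : ZwrZ := ⟨Multiplicative.ofAdd a, Multiplicative.ofAdd n⟩

@[simp] lemma cf_el (a : ℤ →₀ ℤ) (n : ℤ) : cf (el a n) = a := rfl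
@[simp] lemma ht_el (a : ℤ →₀ ℤ) (n : ℤ) : ht (el a n) = n := rfl
@[simp] lemma ht_one : ht 1 = 0 := rfl
@[simp] lemma cf_one : cf 1 = 0 := rfl
@[simp] lemma ht_mul (g h : ZwrZ) : ht (g * h) = ht g + ht h := rfl
@[simp] lemma cf_mul (g h : ZwrZ) (j : ℤ) : cf (g * h) j = cf g j + cf h (j - ht g) := rfl
@[simp] lemma ht_inv (g : ZwrZ) : ht g⁻¹ = - ht g := rfl

lemma el_ext {g h : ZwrZ} (h1 : ∀ j, cf g j = cf h j) (h2 : ht g = ht h) : g = h := by
  apply SemidirectProduct.ext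
  · exact Multiplicative.toAdd.injective (Finsupp.ext h1)
  · exact Multiplicative.toAdd.injective h2

@[simp] lemma cf_inv (g : ZwrZ) (j : ℤ) : cf g⁻¹ j = - cf g (j + ht g) := by
  have h : cf (g⁻¹ * g) j = 0 := by simp
  rw [cf_mul, ht_inv, sub_neg_eq_add] at h
  omega

/-- shifted configuration -/
noncomputable def sh (m : ℤ) (a : ℤ →₀ ℤ) : ℤ →₀ ℤ := Finsupp.equivMapDomain (Equiv.addRight m) a

@[simp] lemma sh_apply (m : ℤ) (a : ℤ →₀ ℤ) (j : ℤ) : sh m a j = a (j - m) := rfl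

/-! ### The filtration -/

/-- `a` lies in `t ^ k Q_β` -/
def DV (β : ℝ) (k : ℤ) (a : ℤ →₀ ℤ) : Prop :=
  ∀ j, a j ≠ 0 → (k : ℝ) ≤ j + β * (padicValInt 2 (a j) : ℝ)

lemma dv_zero (β : ℝ) (k : ℤ) : DV β k 0 := fun _ hj => absurd rfl hj

lemma dv_mono {β : ℝ} {k k' : ℤ} (h : k' ≤ k) {a : ℤ →₀ ℤ} (ha : DV β k a) : DV β k' a := by
  intro j hj
  have := ha j hj
  have h' : (k' : ℝ) ≤ k := by exact_mod_cast h
  linarith

lemma dv_neg {β : ℝ} {k : ℤ} {a : ℤ →₀ ℤ} (ha : DV β k a) : DV β k (-a) := by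
  intro j hj
  have h1 : a j ≠ 0 := by simpa using hj
  have h2 : padicValInt 2 ((-a) j) = padicValInt 2 (a j) := by
    simp [padicValInt]
  rw [h2]
  exact ha j h1

lemma val_add_ge {x y : ℤ} (hxy : x + y ≠ 0) :
    min (padicValInt 2 x) (padicValInt 2 y) ≤ padicValInt 2 (x + y) := by
  have h1 : ((2 : ℕ) ^ min (padicValInt 2 x) (padicValInt 2 y) : ℤ) ∣ x :=
    (padicValInt_dvd_iff _ _).2 (Or.inr (min_le_left _ _))
  have h2 : ((2 : ℕ) ^ min (padicValInt 2 x) (padicValInt 2 y) : ℤ) ∣ y :=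
    (padicValInt_dvd_iff _ _).2 (Or.inr (min_le_right _ _))
  rcases (padicValInt_dvd_iff _ _).1 (dvd_add h1 h2) with h | h
  · exact absurd h hxy
  · exact h

lemma dv_add {β : ℝ} (hβ : 0 ≤ β) {k : ℤ} {a b : ℤ →₀ ℤ} (ha : DV β k a) (hb : DV β k b) :
    DV β k (a + b) := by
  intro j hj
  rw [Finsupp.add_apply] at hj ⊢
  by_cases h1 : a j = 0
  · rw [h1, zero_add] at hj ⊢
    exact hb j hj
  by_cases h2 : b j = 0
  · rw [h2, add_zero] at hj ⊢
    exact ha j hj
  have h3 := val_add_ge hj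
  rcases min_le_iff.1 h3 with h4 | h4
  · have h5 : (padicValInt 2 (a j) : ℝ) ≤ padicValInt 2 (a j + b j) := by exact_mod_cast h4
    have := ha j h1
    have := mul_le_mul_of_nonneg_left h5 hβ
    linarith
  · have h5 : (padicValInt 2 (b j) : ℝ) ≤ padicValInt 2 (a j + b j) := by exact_mod_cast h4
    have := hb j h2
    have := mul_le_mul_of_nonneg_left h5 hβ
    linarith

lemma dv_sh {β : ℝ} {k m : ℤ} {a : ℤ →₀ ℤ} : DV β (k + m) (sh m a) ↔ DV β k a := by
  constructor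
  · intro h j hj
    have := h (j + m) (by simpa using hj)
    simp only [sh_apply, add_sub_cancel_right] at this
    push_cast at this
    linarith
  · intro h j hj
    rw [sh_apply] at hj ⊢
    have := h (j - m) hj
    push_cast at this ⊢
    linarith

lemma dv_exists {β : ℝ} (hβ : 0 ≤ β) (a : ℤ →₀ ℤ) (B : ℤ) : ∃ k, k ≤ B ∧ DV β k a := by
  obtain ⟨M, hM⟩ := a.support.bddBelow
  refine ⟨min M B, min_le_right _ _, ?_⟩
  intro j hj
  have h1 : M ≤ j := hM (by simpa using hj)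
  have h2 : ((min M B : ℤ) : ℝ) ≤ j := by exact_mod_cast (min_le_left M B).trans h1
  have h3 : (0 : ℝ) ≤ β * (padicValInt 2 (a j) : ℝ) := by positivity
  linarith

/-! ### The generating sets -/

/-- the stable letter -/
def tt : ZwrZ := el 0 1

/-- the generating set `Q_β ∪ {t}` -/
def XX (β : ℝ) : Set ZwrZ := {g | (ht g = 0 ∧ DV β 0 (cf g)) ∨ g = tt}

/-- the levels at which `x` and `y` have the same ancestor -/
def KK (β : ℝ) (x y : ZwrZ) : Set ℤ := {k | k ≤ ht x ∧ k ≤ ht y ∧ DV β k (cf y - cf x)}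

lemma letter_cases {β : ℝ} {z : ZwrZ} (h : z ∈ XX β ∨ z⁻¹ ∈ XX β) :
    (ht z = 0 ∧ DV β 0 (cf z)) ∨ z = tt ∨ z = tt⁻¹ := by
  rcases h with (⟨h1, h2⟩ | h) | (⟨h1, h2⟩ | h)
  · exact Or.inl ⟨h1, h2⟩
  · exact Or.inr (Or.inl h)
  · left
    have h3 : ht z = 0 := by simpa using h1
    refine ⟨h3, ?_⟩
    have h4 := dv_neg h2
    intro j hj
    have e : (-cf z⁻¹) j = cf z j := by
      rw [Finsupp.neg_apply, cf_inv, h3, add_zero, neg_neg]
    have := h4 j (by rw [e]; exact hj)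
    rwa [e] at this
  · right; right
    rw [← h, inv_inv]

lemma lower {β : ℝ} (hβ : 0 ≤ β) (x : ZwrZ) (l : List ZwrZ)
    (hl : ∀ z ∈ l, z ∈ XX β ∨ z⁻¹ ∈ XX β) :
    ∃ k ∈ KK β x (x * l.prod), ht x + ht (x * l.prod) - 2 * k ≤ l.length := by
  induction l using List.reverseRecOn with
  | nil =>
    refine ⟨ht x, ⟨le_rfl, by simp, ?_⟩, by simp; omega⟩
    simp only [List.prod_nil, mul_one, sub_self]
    exact dv_zero _ _
  | append_singleton l z ih =>
    obtain ⟨k, ⟨h1, h2, h3⟩, h4⟩ := ih (fun z' hz' => hl z' (by simp [hz']))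
    have hz := letter_cases (hl z (by simp))
    rw [List.prod_append, List.prod_singleton, ← mul_assoc]
    set y := x * l.prod with hy
    have hlen : (l ++ [z]).length = l.length + 1 := by simp
    rw [hlen]
    push_cast
    rcases hz with ⟨hz1, hz2⟩ | rfl | rfl
    · refine ⟨k, ⟨h1, by rw [ht_mul, hz1, add_zero]; exact h2, ?_⟩, by rw [ht_mul, hz1]; omega⟩
      have e : cf (y * z) - cf x = (cf y - cf x) + sh (ht y) (cf z) := by
        ext j
        simp only [Finsupp.sub_apply, Finsupp.add_apply, cf_mul, sh_apply]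
        ring
      rw [e]
      apply dv_add hβ h3
      have := (dv_sh (β := β) (k := 0) (m := ht y) (a := cf z)).2 hz2
      rw [zero_add] at this
      exact dv_mono h2 this
    · have e : cf (y * tt) - cf x = cf y - cf x := by
        ext j
        simp [tt]
      refine ⟨k, ⟨h1, by simp [tt]; omega, by rw [e]; exact h3⟩, by simp [tt]; omega⟩
    · have e : cf (y * tt⁻¹) - cf x = cf y - cf x := by
        ext j
        simp [tt]
      have e2 : ht (y * tt⁻¹) = ht y - 1 := by simp [tt]; ring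
      by_cases hk : k ≤ ht y - 1
      · refine ⟨k, ⟨h1, by rw [e2]; exact hk, by rw [e]; exact h3⟩, by rw [e2]; omega⟩
      · refine ⟨k - 1, ⟨by omega, by rw [e2]; omega, by rw [e]; exact dv_mono (by omega) h3⟩,
          by rw [e2]; omega⟩

lemma tt_pow (n : ℕ) : tt ^ n = el 0 n := by
  induction n with
  | zero => apply el_ext <;> simp
  | succ n ih =>
    rw [pow_succ, ih]
    apply el_ext <;> simp [tt]

lemma tt_zpow (n : ℤ) : tt ^ n = el 0 n := by
  rcases Int.eq_nat_or_neg n with ⟨m, rfl | rfl⟩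
  · rw [zpow_natCast, tt_pow]
  · rw [zpow_neg, zpow_natCast, tt_pow]
    apply el_ext <;> simp

lemma upper {β : ℝ} {x y : ZwrZ} {k : ℤ} (hk : k ∈ KK β x y) :
    (wordLength (XX β) (x⁻¹ * y) : ℤ) ≤ ht x + ht y - 2 * k + 1 := by
  obtain ⟨h1, h2, h3⟩ := hk
  obtain ⟨p, hp⟩ := Int.eq_ofNat_of_zero_le (show 0 ≤ ht x - k by omega)
  obtain ⟨q, hq⟩ := Int.eq_ofNat_of_zero_le (show 0 ≤ ht y - k by omega)
  set m : ZwrZ := el (sh (-k) (cf y - cf x)) 0 with hm
  have hmX : m ∈ XX β := by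
    left
    refine ⟨rfl, ?_⟩
    have := (dv_sh (β := β) (k := k) (m := -k) (a := cf y - cf x)).2 h3
    rw [add_neg_cancel] at this
    exact this
  have e : x⁻¹ * y = (List.replicate p tt⁻¹ ++ [m] ++ List.replicate q tt).prod := by
    rw [List.prod_append, List.prod_append, List.prod_replicate, List.prod_singleton,
      List.prod_replicate, inv_pow, tt_pow, tt_pow]
    apply el_ext
    · intro j
      simp only [cf_mul, cf_inv, ht_inv, ht_el, cf_el, Finsupp.coe_zero, Pi.zero_apply, hm,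
        sh_apply, Finsupp.sub_apply, ht_mul, sub_neg_eq_add]
      have : j + (p : ℤ) + k = j + ht x := by omega
      rw [this]
      ring
    · simp only [ht_mul, ht_inv, ht_el, hm]
      omega
  rw [e]
  have h5 := wordLength_le (X := XX β) (List.replicate p tt⁻¹ ++ [m] ++ List.replicate q tt) (by
    intro z hz
    simp only [List.mem_append, List.mem_replicate, List.mem_singleton] at hz
    rcases hz with (⟨_, rfl⟩ | rfl) | ⟨_, rfl⟩
    · right; right; simp
    · left; exact hmX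
    · left; right; rfl)
  simp only [List.length_append, List.length_replicate, List.length_singleton] at h5
  omega

lemma kk_nonempty {β : ℝ} (hβ : 0 ≤ β) (x y : ZwrZ) : (KK β x y).Nonempty := by
  obtain ⟨k, h1, h2⟩ := dv_exists hβ (cf y - cf x) (min (ht x) (ht y))
  exact ⟨k, h1.trans (min_le_left _ _), h1.trans (min_le_right _ _), h2⟩

lemma kk_bdd (β : ℝ) (x y : ZwrZ) : BddAbove (KK β x y) := ⟨ht x, fun _ hk => hk.1⟩

/-- the meeting level -/
noncomputable def LL (β : ℝ) (x y : ZwrZ) : ℤ := sSup (KK β x y)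

lemma ll_mem {β : ℝ} (hβ : 0 ≤ β) (x y : ZwrZ) : LL β x y ∈ KK β x y :=
  Int.csSup_mem (kk_nonempty hβ x y) (kk_bdd β x y)

lemma le_ll {β : ℝ} {x y : ZwrZ} {k : ℤ} (hk : k ∈ KK β x y) : k ≤ LL β x y :=
  le_csSup (kk_bdd β x y) hk

lemma kk_symm {β : ℝ} {x y : ZwrZ} {k : ℤ} (hk : k ∈ KK β x y) : k ∈ KK β y x := by
  refine ⟨hk.2.1, hk.1, ?_⟩
  have := dv_neg hk.2.2
  rwa [neg_sub] at this

lemma ll_symm {β : ℝ} (hβ : 0 ≤ β) (x y : ZwrZ) : LL β x y = LL β y x :=
  le_antisymm (le_ll (kk_symm (ll_mem hβ x y))) (le_ll (kk_symm (ll_mem hβ y x)))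

lemma ll_ultra {β : ℝ} (hβ : 0 ≤ β) (x y z : ZwrZ) :
    min (LL β x y) (LL β y z) ≤ LL β x z := by
  apply le_ll
  have h1 := ll_mem hβ x y
  have h2 := ll_mem hβ y z
  refine ⟨(min_le_left _ _).trans h1.1, (min_le_right _ _).trans h2.2.1, ?_⟩
  have h3 := dv_add hβ (dv_mono (min_le_left _ _) h1.2.2) (dv_mono (min_le_right _ _) h2.2.2)
  have e : cf y - cf x + (cf z - cf y) = cf z - cf x := by abel
  rwa [e] at h3

lemma generates {β : ℝ} (hβ : 0 ≤ β) : Subgroup.closure (XX β) = ⊤ := by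
  rw [eq_top_iff]
  intro y _
  obtain ⟨k, hk⟩ := kk_nonempty hβ 1 y
  obtain ⟨h1, h2, h3⟩ := hk
  have htt : tt ∈ Subgroup.closure (XX β) := Subgroup.subset_closure (Or.inr rfl)
  set m : ZwrZ := el (sh (-k) (cf y)) 0 with hm
  have hmX : m ∈ XX β := by
    left
    refine ⟨rfl, ?_⟩
    rw [cf_one, sub_zero] at h3
    have := (dv_sh (β := β) (k := k) (m := -k) (a := cf y)).2 h3
    rw [add_neg_cancel] at this
    exact this
  have e : y = tt ^ k * m * tt ^ (ht y - k) := by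
    rw [tt_zpow, tt_zpow]
    apply el_ext
    · intro j
      simp only [cf_mul, ht_el, cf_el, Finsupp.coe_zero, Pi.zero_apply, hm, sh_apply, sub_neg_eq_add,
        sub_add_cancel]
      ring
    · simp only [ht_mul, ht_el, hm]
      ring
  rw [e]
  exact Subgroup.mul_mem _ (Subgroup.mul_mem _ (Subgroup.zpow_mem _ htt _)
    (Subgroup.subset_closure hmX)) (Subgroup.zpow_mem _ htt _)

lemma dist_approx {β : ℝ} (hβ : 0 ≤ β) (x y : ZwrZ) :
    |wordDist (XX β) x y - (ht x + ht y - 2 * LL β x y : ℤ)| ≤ 1 := by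
  have h1 := upper (ll_mem hβ x y)
  obtain ⟨l, hl1, hl2, hl3⟩ := exists_list_of_generates (generates hβ) (x⁻¹ * y)
  obtain ⟨k, hk1, hk2⟩ := lower hβ x l hl2
  rw [hl3, mul_inv_cancel_left] at hk1 hk2
  have h2 := le_ll hk1
  rw [hl1] at hk2
  have h3 : ht x + ht y - 2 * LL β x y ≤ (wordLength (XX β) (x⁻¹ * y) : ℤ) := by omega
  unfold wordDist
  rw [abs_le]
  have h4 : ((wordLength (XX β) (x⁻¹ * y) : ℤ) : ℝ) ≤ ((ht x + ht y - 2 * LL β x y + 1 : ℤ) : ℝ) := by
    exact_mod_cast h1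
  have h5 : ((ht x + ht y - 2 * LL β x y : ℤ) : ℝ) ≤ ((wordLength (XX β) (x⁻¹ * y) : ℤ) : ℝ) := by
    exact_mod_cast h3
  push_cast at *
  constructor <;> linarith

lemma hyperbolic {β : ℝ} (hβ : 0 ≤ β) : IsHyperbolic (wordDist (XX β)) :=
  hyperbolic_of_ultra (dist_approx hβ) (ll_symm hβ) (ll_ultra hβ)

end Pool.Agent.Helper74.HypStruct
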