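import Pool.Agent.Helper74.HypStructDefs

set_option autoImplicit false

namespace Pool.Agent.Helper74.HypStruct

open Filter

/-! ### A general criterion -/

lemma four_point {S : Type} (L : S → S → ℤ) (hsym : ∀ x y, L x y = L y x)
    (hult : ∀ x y z, min (L x y) (L y z) ≤ L x z) (w x y z : S) :
    min (L x y + L z w) (L y z + L x w) ≤ L x z + L y w := by
  have h1 := hult x y z
  have h2 := hult x w z
  have h3 := hult y x w
  have h4 := hult y z w
  rw [hsym y x] at h3
  rw [hsym w z] at h2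
  omega

section crit

variable {S : Type} {d : S → S → ℝ} {h : S → ℤ} {L : S → S → ℤ}

lemma gp_approx (hd : ∀ x y, |d x y - (h x + h y - 2 * L x y : ℤ)| ≤ 1) (w x y : S) :
    |gromovProduct d w x y - (h w - L x w - L y w + L x y : ℤ)| ≤ 3 / 2 := by
  have h1 := abs_le.1 (hd x w)
  have h2 := abs_le.1 (hd y w)
  have h3 := abs_le.1 (hd x y)
  push_cast at *
  unfold gromovProduct
  rw [abs_le]
  constructor <;> linarith [h1.1, h1.2, h2.1, h2.2, h3.1, h3.2]

lemma hyperbolic_of_ultra (hd : ∀ x y, |d x y - (h x + h y - 2 * L x y : ℤ)| ≤ 1)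
    (hsym : ∀ x y, L x y = L y x) (hult : ∀ x y z, min (L x y) (L y z) ≤ L x z) :
    IsHyperbolic d := by
  refine ⟨3, fun w x y z => ?_⟩
  have h1 := abs_le.1 (gp_approx hd w x y)
  have h2 := abs_le.1 (gp_approx hd w y z)
  have h3 := abs_le.1 (gp_approx hd w x z)
  have h4 := four_point L hsym hult w x y z
  have h5 : min (h w - L x w - L y w + L x y) (h w - L y w - L z w + L y z) ≤
      h w - L x w - L z w + L x z := by omega
  have h6 : min ((h w - L x w - L y w + L x y : ℤ) : ℝ) ((h w - L y w - L z w + L y z : ℤ) : ℝ) ≤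
      ((h w - L x w - L z w + L x z : ℤ) : ℝ) := by exact_mod_cast h5
  rcases le_total (gromovProduct d w x y) (gromovProduct d w y z) with hle | hle
  · rw [min_eq_left hle]
    rcases min_le_iff.1 h6 with h7 | h7
    · linarith [h1.2, h3.1]
    · linarith [h2.2, h3.1]
  · rw [min_eq_right hle]
    rcases min_le_iff.1 h6 with h7 | h7
    · linarith [h1.2, h3.1]
    · linarith [h2.2, h3.1]

end crit

/-! ### The boundary of a hyperbolic space -/

lemma gp_symm {S : Type} {d : S → S → ℝ} (hs : ∀ x y, d x y = d y x) (w x y : S) :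
    gromovProduct d w x y = gromovProduct d w y x := by
  unfold gromovProduct
  rw [hs x y]; ring

/-- the relation -/
def Rel {S : Type} (d : S → S → ℝ) (w : S) (u v : ℕ → S) : Prop :=
  Tendsto (fun p : ℕ × ℕ => gromovProduct d w (u p.1) (v p.2)) atTop atTop

lemma rel_iff {S : Type} {d : S → S → ℝ} {w : S} {u v : ℕ → S} :
    Rel d w u v ↔ ∀ M : ℝ, ∃ N : ℕ, ∀ i j, N ≤ i → N ≤ j → M ≤ gromovProduct d w (u i) (v j) := by
  unfold Rel
  rw [tendsto_atTop]
  constructor
  · intro h M
    obtain ⟨⟨a, b⟩, hab⟩ := (eventually_atTop.1 (h M))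
    refine ⟨max a b, fun i j hi hj => ?_⟩
    exact hab (i, j) ⟨le_trans (le_max_left _ _) hi, le_trans (le_max_right _ _) hj⟩
  · intro h M
    obtain ⟨N, hN⟩ := h M
    rw [eventually_atTop]
    exact ⟨(N, N), fun p hp => hN p.1 p.2 hp.1 hp.2⟩

lemma rel_symm {S : Type} {d : S → S → ℝ} (hs : ∀ x y, d x y = d y x) {w : S} {u v : ℕ → S}
    (h : Rel d w u v) : Rel d w v u := by
  rw [rel_iff] at *
  intro M
  obtain ⟨N, hN⟩ := h M
  refine ⟨N, fun i j hi hj => ?_⟩
  rw [gp_symm hs]
  exact hN j i hj hi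

lemma rel_trans {S : Type} {d : S → S → ℝ} (hyp : IsHyperbolic d) {w : S} {u v x : ℕ → S}
    (h₁ : Rel d w u v) (h₂ : Rel d w v x) : Rel d w u x := by
  obtain ⟨δ, hδ⟩ := hyp
  rw [rel_iff] at *
  intro M
  obtain ⟨N₁, hN₁⟩ := h₁ (M + δ)
  obtain ⟨N₂, hN₂⟩ := h₂ (M + δ)
  refine ⟨max N₁ N₂, fun i j hi hj => ?_⟩
  have h1 := hN₁ i (max N₁ N₂) (le_trans (le_max_left _ _) hi) (le_max_left _ _)
  have h2 := hN₂ (max N₁ N₂) j (le_max_right _ _) (le_trans (le_max_right _ _) hj)
  have h3 := hδ w (u i) (v (max N₁ N₂)) (x j)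
  have h4 : M + δ ≤ min (gromovProduct d w (u i) (v (max N₁ N₂)))
      (gromovProduct d w (v (max N₁ N₂)) (x j)) := le_min h1 h2
  linarith

lemma mk_eq_of_rel {S : Type} {d : S → S → ℝ} {w : S} {u v : ℕ → S}
    (hu : ConvergesToInfinity d w u) (hv : ConvergesToInfinity d w v) (h : Rel d w u v) :
    Boundary.mk d w u hu = Boundary.mk d w v hv := Quot.sound h

lemma rel_of_mk_eq {S : Type} {d : S → S → ℝ} (hs : ∀ x y, d x y = d y x) (hyp : IsHyperbolic d)
    {w : S} {u v : ℕ → S}
    (hu : ConvergesToInfinity d w u) (hv : ConvergesToInfinity d w v)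
    (h : Boundary.mk d w u hu = Boundary.mk d w v hv) : Rel d w u v := by
  have h1 := Quot.eqvGen_exact h
  have key : ∀ a b : {u : ℕ → S // ConvergesToInfinity d w u},
      Relation.EqvGen (fun u v : {u : ℕ → S // ConvergesToInfinity d w u} => Rel d w u.1 v.1) a b →
        Rel d w a.1 b.1 := by
    intro a b hab
    induction hab with
    | rel a b h => exact h
    | refl a => exact a.2
    | symm a b _ ih => exact rel_symm hs ih
    | trans a b c _ _ ih1 ih2 => exact rel_trans hyp ih1 ih2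
  exact key _ _ h1

end Pool.Agent.Helper74.HypStruct
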