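import Mathlib

set_option autoImplicit false

/-!
Definitions for quotients of complete intersection numerical semigroups.
-/

namespace Pool.Agent.Helper74.NumSgp

/-- A numerical semigroup is a submonoid of the natural numbers with finite complement. -/
def IsNumericalSemigroup (S : AddSubmonoid ℕ) : Prop := ((S : Set ℕ)ᶜ).Finite

/-- `A` generates `S` and no proper subset of `A` does. -/
def IsMinimalGeneratingSet (S : AddSubmonoid ℕ) (A : Finset ℕ) : Prop :=
  AddSubmonoid.closure (A : Set ℕ) = S ∧
    ∀ B : Finset ℕ, B ⊂ A → AddSubmonoid.closure (B : Set ℕ) ≠ S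

/-- The value of a factorization: `(c_n)` in `ℕ^A` is sent to the sum of the `c_n * n`. -/
def value (A : Finset ℕ) (c : A → ℕ) : ℕ := ∑ i, c i * (i : ℕ)

/-- `σ` is a presentation: two elements of `ℕ^A` have the same value exactly when they are
identified by the additive congruence generated by `σ`. -/
def IsPresentation (A : Finset ℕ) (σ : Set ((A → ℕ) × (A → ℕ))) : Prop :=
  ∀ a b : A → ℕ, addConGen (fun x y => (x, y) ∈ σ) a b ↔ value A a = value A b

/-- A minimal presentation is a presentation of least cardinality. -/
def IsMinimalPresentation (A : Finset ℕ) (σ : Set ((A → ℕ) × (A → ℕ))) : Prop :=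
  IsPresentation A σ ∧ ∀ τ : Set ((A → ℕ) × (A → ℕ)), IsPresentation A τ → σ.encard ≤ τ.encard

/-- A numerical semigroup is a complete intersection when, for its minimal generating set `A`,
a minimal presentation has exactly `|A| - 1` elements. -/
def IsCompleteIntersection (S : AddSubmonoid ℕ) : Prop :=
  IsNumericalSemigroup S ∧ ∃ A : Finset ℕ, IsMinimalGeneratingSet S A ∧
    ∃ σ : Set ((A → ℕ) × (A → ℕ)), IsMinimalPresentation A σ ∧ σ.encard + 1 = (A.card : ℕ∞)

end Pool.Agent.Helper74.NumSgp
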