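import Pool.Agent.Helper74.NumSgpDefs

set_option autoImplicit false

namespace Pool.Agent.Helper74.NumSgp

/-! ### Internal notions -/

/-- irreducible elements -/
def Irr (S : AddSubmonoid ℕ) (n : ℕ) : Prop :=
  n ∈ S ∧ n ≠ 0 ∧ ∀ s ∈ S, ∀ t ∈ S, s + t = n → s = 0 ∨ t = 0

/-- value of a factorization -/
def val {ι : Type} [Fintype ι] (v : ι → ℕ) (c : ι → ℕ) : ℕ := ∑ i, c i * v i

lemma val_add {ι : Type} [Fintype ι] (v : ι → ℕ) (c d : ι → ℕ) :
    val v (c + d) = val v c + val v d := by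
  simp [val, add_mul, Finset.sum_add_distrib]

lemma val_zero {ι : Type} [Fintype ι] (v : ι → ℕ) : val v 0 = 0 := by
  simp [val]

lemma val_nsmul {ι : Type} [Fintype ι] (v : ι → ℕ) (k : ℕ) (c : ι → ℕ) :
    val v (k • c) = k * val v c := by
  simp [val, Finset.mul_sum, mul_assoc]

/-- presentation for an indexed family -/
def Pres {ι : Type} [Fintype ι] (v : ι → ℕ) (σ : Finset ((ι → ℕ) × (ι → ℕ))) : Prop :=
  (∀ p ∈ σ, val v p.1 = val v p.2) ∧
  ∀ c : AddCon (ι → ℕ), (∀ p ∈ σ, c p.1 p.2) → ∀ x y, val v x = val v y → c x y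

structure CIfam (S : AddSubmonoid ℕ) (ι : Type) [Fintype ι] (v : ι → ℕ)
    (σ : Finset ((ι → ℕ) × (ι → ℕ))) : Prop where
  cof : ∃ N, ∀ x, N ≤ x → x ∈ S
  inj : Function.Injective v
  gen : ∀ x, x ∈ S ↔ ∃ c, val v c = x
  irr : ∀ i, Irr S (v i)
  pres : Pres v σ
  card : σ.card + 1 ≤ Fintype.card ι

def CI' (S : AddSubmonoid ℕ) : Prop :=
  ∃ (ι : Type) (_ : Fintype ι) (v : ι → ℕ) (σ : Finset ((ι → ℕ) × (ι → ℕ))), CIfam S ι v σ


lemma exists_zmul {a b : ℕ} (hab : Nat.Coprime a b) {X X' Y Y' : ℕ}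
    (h : a * X + b * Y = a * X' + b * Y') (hle : X' ≤ X) (_ : a ≠ 0) (hb : b ≠ 0) :
    ∃ k, X = X' + k * b ∧ Y' = Y + k * a := by
  obtain ⟨D, rfl⟩ := Nat.exists_eq_add_of_le hle
  have h1 : a * D + b * Y = b * Y' := by
    have : a * (X' + D) = a * X' + a * D := by ring
    omega
  have h2 : b ∣ a * D := by
    have : b ∣ a * D + b * Y := by rw [h1]; exact dvd_mul_right _ _
    exact (Nat.dvd_add_left (dvd_mul_right _ _)).1 this
  have h3 : b ∣ D := (Nat.Coprime.dvd_mul_left hab.symm).1 h2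
  obtain ⟨k, rfl⟩ := h3
  refine ⟨k, by ring, ?_⟩
  have h4 : b * Y' = b * (Y + k * a) := by rw [← h1]; ring
  exact Nat.eq_of_mul_eq_mul_left (Nat.pos_of_ne_zero hb) h4

/-- the glued submonoid -/
def glue (S₁ S₂ : AddSubmonoid ℕ) (a b : ℕ) : AddSubmonoid ℕ where
  carrier := {x | ∃ s ∈ S₁, ∃ t ∈ S₂, x = a * s + b * t}
  zero_mem' := ⟨0, S₁.zero_mem, 0, S₂.zero_mem, by simp⟩
  add_mem' := by
    rintro x y ⟨s, hs, t, ht, rfl⟩ ⟨s', hs', t', ht', rfl⟩
    exact ⟨s + s', S₁.add_mem hs hs', t + t', S₂.add_mem ht ht', by ring⟩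

lemma mem_glue {S₁ S₂ : AddSubmonoid ℕ} {a b x : ℕ} :
    x ∈ glue S₁ S₂ a b ↔ ∃ s ∈ S₁, ∃ t ∈ S₂, x = a * s + b * t := Iff.rfl

lemma glue_comm (S₁ S₂ : AddSubmonoid ℕ) (a b : ℕ) : glue S₁ S₂ a b = glue S₂ S₁ b a := by
  ext x
  simp only [mem_glue]
  constructor
  · rintro ⟨s, hs, t, ht, rfl⟩
    exact ⟨t, ht, s, hs, by ring⟩
  · rintro ⟨s, hs, t, ht, rfl⟩
    exact ⟨t, ht, s, hs, by ring⟩

lemma mul_mem_of_mem {S : AddSubmonoid ℕ} {b : ℕ} (hb : b ∈ S) (k : ℕ) : k * b ∈ S := by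
  have := S.nsmul_mem hb k
  simpa using this

lemma irr_key {S : AddSubmonoid ℕ} {b n s k : ℕ} (hb : b ∈ S) (hb0 : b ≠ 0) (hbi : ¬ Irr S b)
    (hn : Irr S n) (hs : s ∈ S) (h : n = s + k * b) : k = 0 := by
  rcases Nat.eq_zero_or_pos k with hk | hk
  · exact hk
  exfalso
  have h1 := hn.2.2 s hs (k * b) (mul_mem_of_mem hb k) h.symm
  have hkb : k * b ≠ 0 := by positivity
  rcases h1 with h1 | h1
  · subst h1
    rcases Nat.exists_eq_add_of_lt hk with ⟨j, hj⟩
    have hk' : k = 1 + j := by omega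
    subst hk'
    have h2 := hn.2.2 b hb (j * b) (mul_mem_of_mem hb j) (by rw [h]; ring)
    rcases h2 with h2 | h2
    · exact hb0 h2
    · have : n = b := by
        rw [h]
        have : (1 + j) * b = b + j * b := by ring
        omega
      subst this
      exact hbi hn
  · exact hkb h1

lemma irr_glue_left {S₁ S₂ : AddSubmonoid ℕ} {a b : ℕ} (hab : Nat.Coprime a b)
    (ha0 : a ≠ 0) (hb : b ∈ S₁) (hb0 : b ≠ 0) (hbi : ¬ Irr S₁ b) {n : ℕ} (hn : Irr S₁ n) :
    Irr (glue S₁ S₂ a b) (a * n) := by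
  refine ⟨⟨n, hn.1, 0, S₂.zero_mem, by simp⟩, ?_, ?_⟩
  · exact Nat.mul_ne_zero ha0 hn.2.1
  rintro x ⟨s, hs, t, ht, rfl⟩ y ⟨s', hs', t', ht', rfl⟩ h
  have hle : s + s' ≤ n := by
    have : a * (s + s') ≤ a * n := by
      calc a * (s + s') = a * s + a * s' := by ring
        _ ≤ (a * s + b * t) + (a * s' + b * t') := by nlinarith [Nat.zero_le (b * t), Nat.zero_le (b * t')]
        _ = a * n := h
    exact Nat.le_of_mul_le_mul_left this (Nat.pos_of_ne_zero ha0)
  obtain ⟨k, hk1, hk2⟩ := exists_zmul (a := a) (b := b) hab (X := n) (X' := s + s') (Y := 0) (Y' := t + t')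
    (by rw [← h]; ring) hle ha0 hb0
  have hk := irr_key hb hb0 hbi hn (S₁.add_mem hs hs') hk1
  subst hk
  have ht0 : t = 0 := by omega
  have ht0' : t' = 0 := by omega
  subst ht0
  subst ht0'
  have h2 := hn.2.2 s hs s' hs' (by omega)
  rcases h2 with h2 | h2
  · left; simp [h2]
  · right; simp [h2]

lemma val_elim {ι₁ ι₂ : Type} [Fintype ι₁] [Fintype ι₂] (a b : ℕ) (v₁ : ι₁ → ℕ) (v₂ : ι₂ → ℕ)
    (x : ι₁ ⊕ ι₂ → ℕ) :
    val (Sum.elim (fun i => a * v₁ i) (fun j => b * v₂ j)) x =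
      a * val v₁ (fun i => x (Sum.inl i)) + b * val v₂ (fun j => x (Sum.inr j)) := by
  simp only [val, Fintype.sum_sum_type, Sum.elim_inl, Sum.elim_inr, Finset.mul_sum]
  congr 1 <;> (apply Finset.sum_congr rfl; intro i _; ring)

/-- inclusion of the left coordinates -/
def inL (ι₁ ι₂ : Type) : (ι₁ → ℕ) →+ (ι₁ ⊕ ι₂ → ℕ) where
  toFun c := Sum.elim c 0
  map_zero' := by ext i; cases i <;> rfl
  map_add' x y := by ext i; cases i <;> simp

/-- inclusion of the right coordinates -/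
def inR (ι₁ ι₂ : Type) : (ι₂ → ℕ) →+ (ι₁ ⊕ ι₂ → ℕ) where
  toFun c := Sum.elim 0 c
  map_zero' := by ext i; cases i <;> rfl
  map_add' x y := by ext i; cases i <;> simp

lemma inL_add_inR {ι₁ ι₂ : Type} (x : ι₁ ⊕ ι₂ → ℕ) :
    inL ι₁ ι₂ (fun i => x (Sum.inl i)) + inR ι₁ ι₂ (fun j => x (Sum.inr j)) = x := by
  ext i; cases i <;> simp [inL, inR]

lemma pres_glue {ι₁ ι₂ : Type} [Fintype ι₁] [Fintype ι₂] [DecidableEq ι₁] [DecidableEq ι₂]
    {a b : ℕ} (hab : Nat.Coprime a b) (ha0 : a ≠ 0) (hb0 : b ≠ 0)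
    {v₁ : ι₁ → ℕ} {v₂ : ι₂ → ℕ}
    {σ₁ : Finset ((ι₁ → ℕ) × (ι₁ → ℕ))} {σ₂ : Finset ((ι₂ → ℕ) × (ι₂ → ℕ))}
    (h₁ : Pres v₁ σ₁) (h₂ : Pres v₂ σ₂) (α : ι₂ → ℕ) (β : ι₁ → ℕ)
    (hα : val v₂ α = a) (hβ : val v₁ β = b) :
    Pres (Sum.elim (fun i => a * v₁ i) (fun j => b * v₂ j))
      (insert (inL ι₁ ι₂ β, inR ι₁ ι₂ α)
        (σ₁.image (fun p => (inL ι₁ ι₂ p.1, inL ι₁ ι₂ p.2)) ∪
          σ₂.image (fun p => (inR ι₁ ι₂ p.1, inR ι₁ ι₂ p.2)))) := by
  classical
  have hvL : ∀ c, val (Sum.elim (fun i => a * v₁ i) (fun j => b * v₂ j)) (inL ι₁ ι₂ c)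
      = a * val v₁ c := by
    intro c
    rw [val_elim]
    simp [inL, val]
  have hvR : ∀ c, val (Sum.elim (fun i => a * v₁ i) (fun j => b * v₂ j)) (inR ι₁ ι₂ c)
      = b * val v₂ c := by
    intro c
    rw [val_elim]
    simp [inR, val]
  constructor
  · intro p hp
    simp only [Finset.mem_insert, Finset.mem_union, Finset.mem_image] at hp
    rcases hp with rfl | ⟨q, hq, rfl⟩ | ⟨q, hq, rfl⟩
    · simp only [hvL, hvR, hα, hβ]; ring
    · simp only [hvL, h₁.1 q hq]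
    · simp only [hvR, h₂.1 q hq]
  · intro c hc x y hxy
    have hL : ∀ u w, val v₁ u = val v₁ w → c (inL ι₁ ι₂ u) (inL ι₁ ι₂ w) := by
      intro u w huw
      have := h₁.2 (AddCon.comap (inL ι₁ ι₂) (map_add _) c) ?_ u w huw
      · exact this
      · intro p hp
        exact hc (inL ι₁ ι₂ p.1, inL ι₁ ι₂ p.2) (by
          simp only [Finset.mem_insert, Finset.mem_union, Finset.mem_image]
          right; left; exact ⟨p, hp, rfl⟩)
    have hR : ∀ u w, val v₂ u = val v₂ w → c (inR ι₁ ι₂ u) (inR ι₁ ι₂ w) := by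
      intro u w huw
      have := h₂.2 (AddCon.comap (inR ι₁ ι₂) (map_add _) c) ?_ u w huw
      · exact this
      · intro p hp
        exact hc (inR ι₁ ι₂ p.1, inR ι₁ ι₂ p.2) (by
          simp only [Finset.mem_insert, Finset.mem_union, Finset.mem_image]
          right; right; exact ⟨p, hp, rfl⟩)
    have hG : c (inL ι₁ ι₂ β) (inR ι₁ ι₂ α) := by
      exact hc (inL ι₁ ι₂ β, inR ι₁ ι₂ α) (by simp)
    have hGk : ∀ k : ℕ, c (inL ι₁ ι₂ (k • β)) (inR ι₁ ι₂ (k • α)) := by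
      intro k
      rw [map_nsmul (inL ι₁ ι₂), map_nsmul (inR ι₁ ι₂)]
      induction k with
      | zero => simp only [zero_smul]; exact c.refl _
      | succ k ih =>
        rw [succ_nsmul, succ_nsmul]
        exact c.add ih hG
    -- the core statement
    have core : ∀ (x₁ y₁ : ι₁ → ℕ) (x₂ y₂ : ι₂ → ℕ),
        a * val v₁ x₁ + b * val v₂ x₂ = a * val v₁ y₁ + b * val v₂ y₂ →
        val v₁ y₁ ≤ val v₁ x₁ →
        c (inL ι₁ ι₂ x₁ + inR ι₁ ι₂ x₂) (inL ι₁ ι₂ y₁ + inR ι₁ ι₂ y₂) := by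
      intro x₁ y₁ x₂ y₂ h hle
      obtain ⟨k, hk1, hk2⟩ := exists_zmul hab h hle ha0 hb0
      have s1 : c (inL ι₁ ι₂ x₁) (inL ι₁ ι₂ (y₁ + k • β)) := by
        apply hL
        rw [val_add, val_nsmul, hβ, hk1]
      have s2 : c (inR ι₁ ι₂ (x₂ + k • α)) (inR ι₁ ι₂ y₂) := by
        apply hR
        rw [val_add, val_nsmul, hα, hk2]
      rw [map_add] at s1 s2
      have t1 : c (inL ι₁ ι₂ x₁ + inR ι₁ ι₂ x₂)
          (inL ι₁ ι₂ y₁ + inL ι₁ ι₂ (k • β) + inR ι₁ ι₂ x₂) := c.add s1 (c.refl _)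
      have t2 : c (inL ι₁ ι₂ y₁ + inL ι₁ ι₂ (k • β) + inR ι₁ ι₂ x₂)
          (inL ι₁ ι₂ y₁ + inR ι₁ ι₂ (k • α) + inR ι₁ ι₂ x₂) :=
        c.add (c.add (c.refl _) (hGk k)) (c.refl _)
      have t3 : c (inL ι₁ ι₂ y₁ + (inR ι₁ ι₂ x₂ + inR ι₁ ι₂ (k • α)))
          (inL ι₁ ι₂ y₁ + inR ι₁ ι₂ y₂) := c.add (c.refl _) s2
      have e : inL ι₁ ι₂ y₁ + inR ι₁ ι₂ (k • α) + inR ι₁ ι₂ x₂
          = inL ι₁ ι₂ y₁ + (inR ι₁ ι₂ x₂ + inR ι₁ ι₂ (k • α)) := by abel
      rw [e] at t2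
      exact c.trans t1 (c.trans t2 t3)
    rw [val_elim, val_elim] at hxy
    have ex := inL_add_inR x
    have ey := inL_add_inR y
    rcases le_total (val v₁ (fun i => y (Sum.inl i))) (val v₁ (fun i => x (Sum.inl i))) with hle | hle
    · have := core _ _ _ _ hxy hle
      rwa [ex, ey] at this
    · have := core _ _ _ _ hxy.symm hle
      rw [ex, ey] at this
      exact c.symm this

lemma cof_glue {S₁ S₂ : AddSubmonoid ℕ} {a b : ℕ} (hab : Nat.Coprime a b) (ha0 : a ≠ 0)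
    (hb0 : b ≠ 0) (h₁ : ∃ N, ∀ x, N ≤ x → x ∈ S₁) (h₂ : ∃ N, ∀ x, N ≤ x → x ∈ S₂) :
    ∃ N, ∀ x, N ≤ x → x ∈ glue S₁ S₂ a b := by
  obtain ⟨N₁, hN₁⟩ := h₁
  obtain ⟨N₂, hN₂⟩ := h₂
  refine ⟨a * N₁ + b * N₂ + a * b, ?_⟩
  intro x hx
  obtain ⟨D, rfl⟩ := Nat.exists_eq_add_of_le hx
  have hlt : (Nat.chineseRemainder hab 0 D : ℕ) < a * b := Nat.chineseRemainder_lt_mul hab 0 D ha0 hb0
  obtain ⟨hm1, hm2⟩ := (Nat.chineseRemainder hab 0 D).2
  set m := (Nat.chineseRemainder hab 0 D : ℕ) with hm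
  obtain ⟨j, hj⟩ := (Nat.modEq_zero_iff_dvd).1 hm1
  have h3 : m ≡ a * b + D [MOD b] := by
    calc m ≡ D [MOD b] := hm2
      _ ≡ a * b + D [MOD b] := by
        have : (0 : ℕ) + D ≡ a * b + D [MOD b] :=
          Nat.ModEq.add_right D ((Nat.modEq_zero_iff_dvd.2 (dvd_mul_left b a)).symm)
        simpa only [Nat.zero_add] using this
  have h4 : b ∣ (a * b + D) - m := (Nat.modEq_iff_dvd' (by omega)).1 h3
  obtain ⟨t, ht⟩ := h4
  refine ⟨N₁ + j, hN₁ _ (by omega), N₂ + t, hN₂ _ (by omega), ?_⟩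
  have e1 : a * (N₁ + j) = a * N₁ + m := by rw [hj]; ring
  have e2 : b * (N₂ + t) = b * N₂ + ((a * b + D) - m) := by rw [ht]; ring
  omega

lemma ci_glue {S₁ S₂ : AddSubmonoid ℕ} {a b : ℕ} (hab : Nat.Coprime a b) (ha0 : a ≠ 0)
    (hb0 : b ≠ 0) (ha : a ∈ S₂) (hb : b ∈ S₁) (hai : ¬ Irr S₂ a) (hbi : ¬ Irr S₁ b)
    (h₁ : CI' S₁) (h₂ : CI' S₂) : CI' (glue S₁ S₂ a b) := by
  classical
  obtain ⟨ι₁, _, v₁, σ₁, H₁⟩ := h₁
  obtain ⟨ι₂, _, v₂, σ₂, H₂⟩ := h₂
  obtain ⟨β, hβ⟩ := (H₁.gen b).1 hb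
  obtain ⟨α, hα⟩ := (H₂.gen a).1 ha
  have irrL : ∀ i, Irr (glue S₁ S₂ a b) (a * v₁ i) := fun i =>
    irr_glue_left hab ha0 hb hb0 hbi (H₁.irr i)
  have irrR : ∀ j, Irr (glue S₁ S₂ a b) (b * v₂ j) := by
    intro j
    rw [glue_comm]
    exact irr_glue_left hab.symm hb0 ha ha0 hai (H₂.irr j)
  refine ⟨ι₁ ⊕ ι₂, inferInstance, Sum.elim (fun i => a * v₁ i) (fun j => b * v₂ j),
    insert (inL ι₁ ι₂ β, inR ι₁ ι₂ α)
        (σ₁.image (fun p => (inL ι₁ ι₂ p.1, inL ι₁ ι₂ p.2)) ∪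
          σ₂.image (fun p => (inR ι₁ ι₂ p.1, inR ι₁ ι₂ p.2))), ?_, ?_, ?_, ?_, ?_, ?_⟩
  · exact cof_glue hab ha0 hb0 H₁.cof H₂.cof
  · have cross : ∀ i j, a * v₁ i ≠ b * v₂ j := by
      intro i j h
      obtain ⟨k, hk1, hk2⟩ := exists_zmul (a := a) (b := b) hab (X := v₁ i) (X' := 0) (Y := 0)
        (Y' := v₂ j) (by rw [← h]; ring) (Nat.zero_le _) ha0 hb0
      have hk := irr_key hb hb0 hbi (H₁.irr i) (S₁.zero_mem) hk1
      subst hk
      exact (H₁.irr i).2.1 (by omega)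
    intro x y hxy
    rcases x with i | j <;> rcases y with i' | j'
    · simp only [Sum.elim_inl] at hxy
      have := Nat.eq_of_mul_eq_mul_left (Nat.pos_of_ne_zero ha0) hxy
      rw [H₁.inj this]
    · simp only [Sum.elim_inl, Sum.elim_inr] at hxy
      exact absurd hxy (cross _ _)
    · simp only [Sum.elim_inl, Sum.elim_inr] at hxy
      exact absurd hxy.symm (cross _ _)
    · simp only [Sum.elim_inr] at hxy
      have := Nat.eq_of_mul_eq_mul_left (Nat.pos_of_ne_zero hb0) hxy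
      rw [H₂.inj this]
  · intro x
    rw [mem_glue]
    constructor
    · rintro ⟨s, hs, t, ht, rfl⟩
      obtain ⟨c, hc⟩ := (H₁.gen s).1 hs
      obtain ⟨d, hd⟩ := (H₂.gen t).1 ht
      refine ⟨Sum.elim c d, ?_⟩
      rw [val_elim]
      simp only [Sum.elim_inl, Sum.elim_inr]
      rw [hc, hd]
    · rintro ⟨c, hc⟩
      rw [val_elim] at hc
      exact ⟨_, (H₁.gen _).2 ⟨_, rfl⟩, _, (H₂.gen _).2 ⟨_, rfl⟩, hc.symm⟩
  · intro x
    rcases x with i | j
    · exact irrL i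
    · exact irrR j
  · exact pres_glue hab ha0 hb0 H₁.pres H₂.pres α β hα hβ
  · have c1 := Finset.card_insert_le (inL ι₁ ι₂ β, inR ι₁ ι₂ α)
        (σ₁.image (fun p => (inL ι₁ ι₂ p.1, inL ι₁ ι₂ p.2)) ∪
          σ₂.image (fun p => (inR ι₁ ι₂ p.1, inR ι₁ ι₂ p.2)))
    have c2 := Finset.card_union_le (σ₁.image (fun p => (inL ι₁ ι₂ p.1, inL ι₁ ι₂ p.2)))
          (σ₂.image (fun p => (inR ι₁ ι₂ p.1, inR ι₁ ι₂ p.2)))
    have c3 : (σ₁.image (fun p => (inL ι₁ ι₂ p.1, inL ι₁ ι₂ p.2))).card ≤ σ₁.card :=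
      Finset.card_image_le
    have c4 : (σ₂.image (fun p => (inR ι₁ ι₂ p.1, inR ι₁ ι₂ p.2))).card ≤ σ₂.card :=
      Finset.card_image_le
    have c5 := H₁.card
    have c6 := H₂.card
    rw [Fintype.card_sum]
    omega

lemma irr_top {n : ℕ} (h : Irr (⊤ : AddSubmonoid ℕ) n) : n = 1 := by
  by_contra hn
  have h0 := h.2.1
  have := h.2.2 1 (AddSubmonoid.mem_top _) (n - 1) (AddSubmonoid.mem_top _) (by omega)
  omega

lemma ci_top : CI' (⊤ : AddSubmonoid ℕ) := by
  refine ⟨Unit, inferInstance, fun _ => 1, ∅, ⟨0, fun x _ => AddSubmonoid.mem_top _⟩, ?_, ?_, ?_, ?_, ?_⟩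
  · intro x y _; rfl
  · intro x
    refine ⟨fun _ => ⟨fun _ => x, by simp [val]⟩, fun _ => AddSubmonoid.mem_top _⟩
  · intro _
    refine ⟨AddSubmonoid.mem_top _, one_ne_zero, ?_⟩
    intro s _ t _ h
    omega
  · refine ⟨by simp, ?_⟩
    intro c _ x y hxy
    have : x = y := by
      funext i
      simpa [val] using hxy
    rw [this]
    exact c.refl _
  · simp

/-- `T` is a quotient of a complete intersection -/
def Q (T : Set ℕ) : Prop := ∃ S : AddSubmonoid ℕ, CI' S ∧ ∃ u : ℕ, 1 ≤ u ∧ ∀ x, x ∈ T ↔ u * x ∈ S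

/-- the same with `u * x` never irreducible -/
def Qp (T : Set ℕ) : Prop := ∃ S : AddSubmonoid ℕ, CI' S ∧ ∃ u : ℕ, 1 ≤ u ∧
  (∀ x, x ∈ T ↔ u * x ∈ S) ∧ ∀ x, ¬ Irr S (u * x)

lemma ci_cof {S : AddSubmonoid ℕ} (h : CI' S) : ∃ N, ∀ x, N ≤ x → x ∈ S := by
  obtain ⟨ι, _, v, σ, H⟩ := h
  exact H.cof

/-- The main computation. -/
lemma quot_glue {S₁ S₂ : AddSubmonoid ℕ} {a b u₁ u₂ : ℕ} (hab : Nat.Coprime a b) (ha0 : a ≠ 0)
    (hb0 : b ≠ 0) (ha : a ∈ S₂) {N₁ N₂ : ℕ} (hN₁ : ∀ x, N₁ ≤ x → x ∈ S₁)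
    (hN₂ : ∀ x, N₂ ≤ x → x ∈ S₂) (hu₂ : 1 ≤ u₂) (hb1 : N₁ ≤ b) (hb2 : u₁ * (N₂ + a) < b) (x : ℕ) :
    (a * u₁ + b * u₂) * x ∈ glue S₁ S₂ a b ↔
      (u₁ * x ∈ S₁ ∧ u₂ * x ∈ S₂) ∨ ∃ t ∈ S₂, u₂ * x = a + t := by
  have hbS : ∀ k s, 1 ≤ k → s + k * b ∈ S₁ := by
    intro k s hk
    apply hN₁
    nlinarith
  rw [mem_glue]
  constructor
  · rintro ⟨s, hs, t, ht, h⟩
    have h' : a * (u₁ * x) + b * (u₂ * x) = a * s + b * t := by rw [← h]; ring
    rcases le_total (u₁ * x) s with hle | hle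
    · obtain ⟨k, hk1, hk2⟩ := exists_zmul hab h'.symm hle ha0 hb0
      rcases Nat.eq_zero_or_pos k with hk | hk
      · subst hk
        left
        refine ⟨?_, ?_⟩
        · have : u₁ * x = s := by omega
          rw [this]; exact hs
        · have : u₂ * x = t := by omega
          rw [this]; exact ht
      · right
        obtain ⟨j, rfl⟩ := Nat.exists_eq_add_of_le hk
        refine ⟨t + j * a, S₂.add_mem ht (mul_mem_of_mem ha j), ?_⟩
        rw [hk2]; ring
    · obtain ⟨k, hk1, hk2⟩ := exists_zmul hab h' hle ha0 hb0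
      rcases Nat.eq_zero_or_pos k with hk | hk
      · subst hk
        left
        refine ⟨?_, ?_⟩
        · have : u₁ * x = s := by omega
          rw [this]; exact hs
        · have : u₂ * x = t := by omega
          rw [this]; exact ht
      · right
        have h1 : b ≤ u₁ * x := by
          rw [hk1]; nlinarith
        have h2 : N₂ + a < x := by
          by_contra hcon
          have : u₁ * x ≤ u₁ * (N₂ + a) := Nat.mul_le_mul_left _ (by omega)
          omega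
        have h3 : x ≤ u₂ * x := Nat.le_mul_of_pos_left _ hu₂
        refine ⟨u₂ * x - a, hN₂ _ (by omega), by omega⟩
  · rintro (⟨h1, h2⟩ | ⟨t, ht, h⟩)
    · exact ⟨u₁ * x, h1, u₂ * x, h2, by ring⟩
    · refine ⟨u₁ * x + 1 * b, hbS 1 _ le_rfl, t, ht, ?_⟩
      have : (a * u₁ + b * u₂) * x = a * (u₁ * x) + b * (u₂ * x) := by ring
      rw [this, h]; ring

lemma not_irr_of_large {S : AddSubmonoid ℕ} {N b : ℕ} (hN : ∀ x, N ≤ x → x ∈ S) (hb : 2 * N + 2 ≤ b) :
    ¬ Irr S b := by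
  intro h
  have := h.2.2 (N + 1) (hN _ (by omega)) (b - (N + 1)) (hN _ (by omega)) (by omega)
  omega

lemma exists_coprime_ge {a : ℕ} (ha : a ≠ 0) (M : ℕ) : ∃ b, M ≤ b ∧ Nat.Coprime a b := by
  refine ⟨a * M + 1, ?_, ?_⟩
  · have : M ≤ a * M := Nat.le_mul_of_pos_left _ (Nat.pos_of_ne_zero ha)
    omega
  · simp

lemma not_irr_zero (S : AddSubmonoid ℕ) : ¬ Irr S 0 := fun h => h.2.1 rfl

lemma Qp_of_Q {T : Set ℕ} (h : Q T) : Qp T := by
  obtain ⟨S, hS, u, hu, hT⟩ := h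
  obtain ⟨N, hN⟩ := ci_cof hS
  set a := 2 * N + 2 with ha
  have haS : a ∈ S := hN _ (by omega)
  obtain ⟨b, hb, hab⟩ := exists_coprime_ge (a := a) (by omega) (1 * (N + a) + 2)
  have key := quot_glue (S₁ := ⊤) (S₂ := S) (a := a) (b := b) (u₁ := 1) (u₂ := u) (N₁ := 0)
    (N₂ := N) hab (by omega) (by omega) haS (fun x _ => AddSubmonoid.mem_top _) hN hu (by omega)
    (by omega)
  have key' : ∀ x, x ∈ T ↔ (a * 1 + b * u) * x ∈ glue ⊤ S a b := by
    intro x
    rw [key, hT]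
    constructor
    · intro h; exact Or.inl ⟨AddSubmonoid.mem_top _, h⟩
    · rintro (h | ⟨t, ht, h⟩)
      · exact h.2
      · rw [h]; exact S.add_mem haS ht
  refine ⟨glue ⊤ S a b, ?_, a * 1 + b * u, ?_, key', ?_⟩
  · refine ci_glue hab (by omega) (by omega) haS (AddSubmonoid.mem_top _)
      (not_irr_of_large hN le_rfl) ?_ ci_top hS
    intro h
    have := irr_top h
    omega
  · omega
  · intro x hx
    by_cases hxT : x ∈ T
    · rcases Nat.eq_zero_or_pos x with rfl | hx0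
      · simp only [Nat.mul_zero] at hx
        exact not_irr_zero _ hx
      · have hux := (hT x).1 hxT
        have := hx.2.2 (a * x) ⟨x, AddSubmonoid.mem_top _, 0, S.zero_mem, by ring⟩ (b * (u * x))
          ⟨0, AddSubmonoid.zero_mem _, u * x, hux, by ring⟩ (by ring)
        rcases this with h | h
        · have : 0 < a * x := Nat.mul_pos (by omega) hx0
          omega
        · have : 0 < b * (u * x) := Nat.mul_pos (by omega) (Nat.mul_pos hu hx0)
          omega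
    · exact hxT ((key' x).2 hx.1)

lemma Q_fill {T₁ T₂ : Set ℕ} (h₁ : Q T₁) (h₂ : Q T₂) {n : ℕ} (hn : n ∈ T₂) (hn0 : n ≠ 0) :
    Q {x | (x ∈ T₁ ∧ x ∈ T₂) ∨ ∃ t ∈ T₂, x = n + t} := by
  obtain ⟨S₁, hS₁, u₁, hu₁, hT₁⟩ := h₁
  obtain ⟨S₂, hS₂, u₂, hu₂, hT₂, hirr⟩ := Qp_of_Q h₂
  obtain ⟨N₁, hN₁⟩ := ci_cof hS₁
  obtain ⟨N₂, hN₂⟩ := ci_cof hS₂
  have ha0 : u₂ * n ≠ 0 := Nat.mul_ne_zero (by omega) hn0
  have haS : u₂ * n ∈ S₂ := (hT₂ n).1 hn
  obtain ⟨b, hb, hab⟩ := exists_coprime_ge ha0 (u₁ * (N₂ + u₂ * n) + 2 * N₁ + 2)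
  have key := quot_glue (S₁ := S₁) (S₂ := S₂) (a := u₂ * n) (b := b) (u₁ := u₁) (u₂ := u₂)
    (N₁ := N₁) (N₂ := N₂) hab ha0 (by omega) haS hN₁ hN₂ hu₂ (by omega) (by omega)
  refine ⟨glue S₁ S₂ (u₂ * n) b, ?_, u₂ * n * u₁ + b * u₂, ?_, ?_⟩
  · exact ci_glue hab ha0 (by omega) haS (hN₁ _ (by omega)) (hirr n)
      (not_irr_of_large hN₁ (by omega)) hS₁ hS₂
  · have : 0 < b * u₂ := Nat.mul_pos (by omega) hu₂
    omega
  · intro x
    rw [key]
    simp only [Set.mem_ofPred_eq]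
    constructor
    · rintro (⟨h1, h2⟩ | ⟨t, ht, rfl⟩)
      · exact Or.inl ⟨(hT₁ x).1 h1, (hT₂ x).1 h2⟩
      · exact Or.inr ⟨u₂ * t, (hT₂ t).1 ht, by ring⟩
    · rintro (⟨h1, h2⟩ | ⟨t, ht, h⟩)
      · exact Or.inl ⟨(hT₁ x).2 h1, (hT₂ x).2 h2⟩
      · right
        have hle : n ≤ x := by
          have : u₂ * n ≤ u₂ * x := by omega
          exact Nat.le_of_mul_le_mul_left this hu₂
        obtain ⟨y, rfl⟩ := Nat.exists_eq_add_of_le hle
        refine ⟨y, (hT₂ y).2 ?_, rfl⟩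
        have : u₂ * y = t := by
          have : u₂ * (n + y) = u₂ * n + u₂ * y := by ring
          omega
        rw [this]; exact ht

lemma Q_inter {T₁ T₂ : Set ℕ} (h₁ : Q T₁) (h₂ : Q T₂) : Q (T₁ ∩ T₂) := by
  obtain ⟨S₁, hS₁, u₁, hu₁, hT₁⟩ := h₁
  obtain ⟨S₂, hS₂, u₂, hu₂, hT₂⟩ := h₂
  obtain ⟨N₁, hN₁⟩ := ci_cof hS₁
  obtain ⟨N₂, hN₂⟩ := ci_cof hS₂
  set a := u₂ * (N₁ + N₂) + 2 * N₂ + 2 with ha
  have ha0 : a ≠ 0 := by omega
  have haS : a ∈ S₂ := hN₂ _ (by omega)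
  obtain ⟨b, hb, hab⟩ := exists_coprime_ge ha0 (u₁ * (N₂ + a) + 2 * N₁ + 2)
  have key := quot_glue (S₁ := S₁) (S₂ := S₂) (a := a) (b := b) (u₁ := u₁) (u₂ := u₂)
    (N₁ := N₁) (N₂ := N₂) hab ha0 (by omega) haS hN₁ hN₂ hu₂ (by omega) (by omega)
  refine ⟨glue S₁ S₂ a b, ?_, a * u₁ + b * u₂, ?_, ?_⟩
  · exact ci_glue hab ha0 (by omega) haS (hN₁ _ (by omega)) (not_irr_of_large hN₂ (by omega))
      (not_irr_of_large hN₁ (by omega)) hS₁ hS₂
  · have : 0 < b * u₂ := Nat.mul_pos (by omega) hu₂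
    omega
  · intro x
    rw [key]
    constructor
    · rintro ⟨h1, h2⟩
      exact Or.inl ⟨(hT₁ x).1 h1, (hT₂ x).1 h2⟩
    · rintro (⟨h1, h2⟩ | ⟨t, ht, h⟩)
      · exact ⟨(hT₁ x).2 h1, (hT₂ x).2 h2⟩
      · have hle : N₁ + N₂ ≤ x := by
          have : u₂ * (N₁ + N₂) ≤ u₂ * x := by omega
          exact Nat.le_of_mul_le_mul_left this hu₂
        have e1 : x ≤ u₁ * x := Nat.le_mul_of_pos_left _ hu₁
        have e2 : x ≤ u₂ * x := Nat.le_mul_of_pos_left _ hu₂
        exact ⟨(hT₁ x).2 (hN₁ _ (by omega)), (hT₂ x).2 (hN₂ _ (by omega))⟩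

lemma Q_univ : Q Set.univ := ⟨⊤, ci_top, 1, le_rfl, fun x => by simp⟩

lemma Q_pair (g : ℕ) (hg : g ≠ 0) : ∃ T, Q T ∧ g ∉ T := by
  refine ⟨{x | 1 * x ∈ glue ⊤ ⊤ (g + 2) (g + 3)}, ⟨glue ⊤ ⊤ (g + 2) (g + 3), ?_, 1, le_rfl,
    fun x => Iff.rfl⟩, ?_⟩
  · refine ci_glue ?_ (by omega) (by omega) (AddSubmonoid.mem_top _) (AddSubmonoid.mem_top _)
      ?_ ?_ ci_top ci_top
    · have : g + 3 = (g + 2) * 1 + 1 := by ring
      rw [this]
      simp
    · intro h; have := irr_top h; omega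
    · intro h; have := irr_top h; omega
  · rintro ⟨s, _, t, _, h⟩
    rcases Nat.eq_zero_or_pos s with hs | hs
    · rcases Nat.eq_zero_or_pos t with ht | ht
      · subst hs; subst ht; simp at h; exact hg h
      · nlinarith [Nat.zero_le ((g + 2) * s)]
    · nlinarith [Nat.zero_le ((g + 3) * t)]

lemma Q_finset_inter (A : Set ℕ) (G : Finset ℕ)
    (h : ∀ g ∈ G, ∃ T, Q T ∧ A ⊆ T ∧ g ∉ T) : ∃ T, Q T ∧ A ⊆ T ∧ ∀ g ∈ G, g ∉ T := by
  classical
  induction G using Finset.induction_on with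
  | empty => exact ⟨Set.univ, Q_univ, Set.subset_univ _, by simp⟩
  | insert g G hg ih =>
    obtain ⟨T₁, h1, h2, h3⟩ := ih (fun g' hg' => h g' (Finset.mem_insert_of_mem hg'))
    obtain ⟨T₂, h4, h5, h6⟩ := h g (Finset.mem_insert_self _ _)
    refine ⟨T₁ ∩ T₂, Q_inter h1 h4, Set.subset_inter h2 h5, ?_⟩
    intro g' hg'
    rcases Finset.mem_insert.1 hg' with rfl | hg'
    · exact fun h => h6 h.2
    · exact fun h => h3 g' hg' h.1

/-- separation of a gap from a finitely generated submonoid -/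
lemma sep (A : Finset ℕ) (hA : ∀ n ∈ A, n ≠ 0) :
    ∀ g, g ∉ AddSubmonoid.closure (A : Set ℕ) → ∃ T, Q T ∧ (A : Set ℕ) ⊆ T ∧ g ∉ T := by
  classical
  induction A using Finset.induction_on with
  | empty =>
    intro g hg
    have hg0 : g ≠ 0 := by
      rintro rfl
      exact hg (AddSubmonoid.zero_mem _)
    obtain ⟨T, h1, h2⟩ := Q_pair g hg0
    exact ⟨T, h1, by simp, h2⟩
  | insert n B hn ihB =>
    have ihB' := ihB (fun m hm => hA m (Finset.mem_insert_of_mem hm))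
    have hn0 : n ≠ 0 := hA n (Finset.mem_insert_self _ _)
    intro g
    induction g using Nat.strong_induction_on with
    | _ g ihg =>
      intro hg
      have hBsub : AddSubmonoid.closure (B : Set ℕ) ≤ AddSubmonoid.closure ((insert n B : Finset ℕ) : Set ℕ) :=
        AddSubmonoid.closure_mono (by simp)
      obtain ⟨T₁, hQ₁, hB₁, hg₁⟩ := ihB' g (fun h => hg (hBsub h))
      obtain ⟨T₂, hQ₂, hA₂, hG₂⟩ := Q_finset_inter ((insert n B : Finset ℕ) : Set ℕ)
        ((Finset.range g).filter (fun x => x ∉ AddSubmonoid.closure ((insert n B : Finset ℕ) : Set ℕ)))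
        (by
          intro g' hg'
          rw [Finset.mem_filter, Finset.mem_range] at hg'
          exact ihg g' hg'.1 hg'.2)
      have hnT₂ : n ∈ T₂ := hA₂ (by simp)
      refine ⟨_, Q_fill hQ₁ hQ₂ hnT₂ hn0, ?_, ?_⟩
      · intro m hm
        rw [Finset.mem_coe, Finset.mem_insert] at hm
        rcases hm with rfl | hm
        · right
          have : (0 : ℕ) ∈ T₂ := by
            obtain ⟨S, _, u, _, hT⟩ := hQ₂
            rw [hT, Nat.mul_zero]
            exact S.zero_mem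
          exact ⟨0, this, by simp⟩
        · left
          exact ⟨hB₁ hm, hA₂ (by simp [hm])⟩
      · rintro (⟨h1, _⟩ | ⟨t, ht, h⟩)
        · exact hg₁ h1
        · have htg : t < g := by omega
          refine hG₂ t ?_ ht
          rw [Finset.mem_filter, Finset.mem_range]
          refine ⟨htg, fun hc => hg ?_⟩
          rw [h]
          exact AddSubmonoid.add_mem _ (AddSubmonoid.subset_closure (by simp)) hc

/-- every cofinite submonoid is a quotient -/
lemma main (T : AddSubmonoid ℕ) (hT : ((T : Set ℕ)ᶜ).Finite) : Q (T : Set ℕ) := by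
  classical
  set G := hT.toFinset with hG
  obtain ⟨c, hc⟩ : ∃ c, ∀ x, c < x → x ∈ T := by
    refine ⟨G.sup id, fun x hx => ?_⟩
    by_contra hxT
    have : x ∈ G := by rw [hG, Set.Finite.mem_toFinset]; exact hxT
    have := Finset.le_sup (f := id) this
    simp only [id] at this
    omega
  set A : Finset ℕ := (Finset.range (2 * c + 4)).filter (fun x => x ∈ T ∧ x ≠ 0) with hAdef
  have hAT : (A : Set ℕ) ⊆ T := by
    intro x hx
    rw [Finset.mem_coe, hAdef, Finset.mem_filter] at hx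
    exact hx.2.1
  have hclos : AddSubmonoid.closure (A : Set ℕ) ≤ T := AddSubmonoid.closure_le.2 hAT
  obtain ⟨T', hQ, hAT', hGT'⟩ := Q_finset_inter (A : Set ℕ) G (by
    intro g hg
    refine sep A ?_ g ?_
    · intro n hn
      rw [hAdef, Finset.mem_filter] at hn
      exact hn.2.2
    · intro h
      have h2 : g ∈ T := hclos h
      rw [hG, Set.Finite.mem_toFinset] at hg
      exact hg h2)
  have hadd : ∀ x y, x ∈ T' → y ∈ T' → x + y ∈ T' := by
    obtain ⟨S, _, u, _, hS⟩ := hQ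
    intro x y hx hy
    rw [hS] at *
    rw [mul_add]
    exact S.add_mem hx hy
  have hzero : (0 : ℕ) ∈ T' := by
    obtain ⟨S, _, u, _, hS⟩ := hQ
    rw [hS, Nat.mul_zero]
    exact S.zero_mem
  have hsub : ∀ x, x ∈ T → x ∈ T' := by
    intro x
    induction x using Nat.strong_induction_on with
    | _ x ih =>
      intro hx
      rcases Nat.eq_zero_or_pos x with rfl | hx0
      · exact hzero
      by_cases hlt : x < 2 * c + 4
      · apply hAT'
        rw [Finset.mem_coe, hAdef, Finset.mem_filter, Finset.mem_range]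
        exact ⟨hlt, hx, by omega⟩
      · have h1 : c + 1 ∈ T' := by
          apply hAT'
          rw [Finset.mem_coe, hAdef, Finset.mem_filter, Finset.mem_range]
          exact ⟨by omega, hc _ (by omega), by omega⟩
        have h2 : x - (c + 1) ∈ T' := ih _ (by omega) (hc _ (by omega))
        have := hadd _ _ h1 h2
        have e : c + 1 + (x - (c + 1)) = x := by omega
        rwa [e] at this
  have heq : T' = (T : Set ℕ) := by
    ext x
    constructor
    · intro hx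
      by_contra hxT
      refine hGT' x ?_ hx
      rw [hG, Set.Finite.mem_toFinset]
      exact hxT
    · exact hsub x
  rw [← heq]
  exact hQ

/-! ### From the internal notion to the definition -/

lemma mem_of_irr_closure {S : AddSubmonoid ℕ} {B : Set ℕ} (hB : B ⊆ S) :
    ∀ x ∈ AddSubmonoid.closure B, Irr S x → x ∈ B := by
  intro x hx
  induction hx using AddSubmonoid.closure_induction with
  | mem x hx => exact fun _ => hx
  | zero => exact fun h => absurd rfl h.2.1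
  | add x y hx hy ihx ihy =>
    intro h
    have hS : AddSubmonoid.closure B ≤ S := AddSubmonoid.closure_le.2 hB
    rcases h.2.2 x (hS hx) y (hS hy) rfl with h0 | h0
    · subst h0
      rw [zero_add] at h ⊢
      exact ihy h
    · subst h0
      rw [add_zero] at h ⊢
      exact ihx h

/-- every presentation has at least `|A| - 1` elements -/
lemma card_le_of_presentation (A : Finset ℕ) (hA : ∀ n ∈ A, n ≠ 0)
    (τ : Set ((A → ℕ) × (A → ℕ))) (hτ : IsPresentation A τ) :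
    (A.card : ℕ∞) ≤ τ.encard + 1 := by
  classical
  by_cases hfin : τ.Finite
  swap
  · rw [Set.Infinite.encard_eq hfin]; simp
  rcases A.eq_empty_or_nonempty with rfl | ⟨m, hm⟩
  · simp
  let i₀ : A := ⟨m, hm⟩
  let δ : (A → ℕ) × (A → ℕ) → (A → ℚ) := fun p i => (p.1 i : ℚ) - (p.2 i : ℚ)
  let W : Finset (A → ℚ) := hfin.toFinset.image δ
  let D : Submodule ℚ (A → ℚ) := Submodule.span ℚ (W : Set (A → ℚ))
  let r : AddCon (A → ℕ) :=
    { r := fun a b => δ (a, b) ∈ D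
      iseqv := by
        refine ⟨?_, ?_, ?_⟩
        · intro a
          have : δ (a, a) = 0 := by funext i; simp [δ]
          rw [this]; exact D.zero_mem
        · intro a b h
          have : δ (b, a) = - δ (a, b) := by funext i; simp [δ]
          rw [this]; exact D.neg_mem h
        · intro a b c h1 h2
          have : δ (a, c) = δ (a, b) + δ (b, c) := by funext i; simp [δ]
          rw [this]; exact D.add_mem h1 h2
      add' := by
        intro a b c d h1 h2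
        have : δ (a + c, b + d) = δ (a, b) + δ (c, d) := by
          funext i; simp [δ]; ring
        show δ (a + c, b + d) ∈ D
        rw [this]; exact D.add_mem h1 h2 }
  have hr0 : addConGen (fun x y => (x, y) ∈ τ) ≤ r := by
    apply AddCon.addConGen_le.2
    intro a b hab
    show δ (a, b) ∈ D
    apply Submodule.subset_span
    simp only [W, Finset.coe_image, Set.Finite.coe_toFinset]
    exact ⟨(a, b), hab, rfl⟩
  have hr : ∀ a b, value A a = value A b → r a b := fun a b hab => hr0 ((hτ a b).2 hab)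
  have hw : ∀ i : A, δ (Pi.single i (i₀ : ℕ), Pi.single i₀ (i : ℕ)) ∈ D := by
    intro i
    apply hr
    simp [value, Pi.single_apply, mul_comm]
  let E : Submodule ℚ (A → ℚ) := Submodule.span ℚ {Pi.single i₀ (1 : ℚ)}
  have htop : (⊤ : Submodule ℚ (A → ℚ)) ≤ D ⊔ E := by
    have hsingle : ∀ i : A, Pi.single i (1 : ℚ) ∈ D ⊔ E := by
      intro i
      have hi0 : ((i₀ : ℕ) : ℚ) ≠ 0 := by
        exact_mod_cast hA m hm
      have e : Pi.single i (1 : ℚ) = ((i₀ : ℕ) : ℚ)⁻¹ • δ (Pi.single i (i₀ : ℕ), Pi.single i₀ (i : ℕ))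
          + (((i₀ : ℕ) : ℚ)⁻¹ * ((i : ℕ) : ℚ)) • (Pi.single i₀ (1 : ℚ) : A → ℚ) := by
        funext j
        simp only [δ, Pi.add_apply, Pi.smul_apply, smul_eq_mul]
        by_cases h1 : j = i <;> by_cases h2 : j = i₀
        · subst h1; subst h2
          simp only [Pi.single_eq_same]
          field_simp
          ring
        · subst h1
          simp only [Pi.single_eq_same, Pi.single_eq_of_ne h2, Nat.cast_zero]
          field_simp
          ring
        · subst h2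
          simp only [Pi.single_eq_same, Pi.single_eq_of_ne h1, Nat.cast_zero]
          ring
        · simp only [Pi.single_eq_of_ne h1, Pi.single_eq_of_ne h2, Nat.cast_zero]
          ring
      rw [e]
      apply Submodule.add_mem
      · exact Submodule.mem_sup_left (D.smul_mem _ (hw i))
      · exact Submodule.mem_sup_right (E.smul_mem _ (Submodule.subset_span rfl))
    intro f _
    have : f = ∑ i, f i • Pi.single i (1 : ℚ) := by
      funext j
      simp [Finset.sum_apply, Pi.single_apply]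
    rw [this]
    exact Submodule.sum_mem _ (fun i _ => Submodule.smul_mem _ _ (hsingle i))
  have h1 : Module.finrank ℚ (A → ℚ) = A.card := by simp
  have h2 : Module.finrank ℚ (A → ℚ) ≤ Module.finrank ℚ D + Module.finrank ℚ E := by
    calc Module.finrank ℚ (A → ℚ) = Module.finrank ℚ (⊤ : Submodule ℚ (A → ℚ)) := by
          rw [finrank_top]
      _ ≤ Module.finrank ℚ (D ⊔ E : Submodule ℚ (A → ℚ)) := Submodule.finrank_mono htop
      _ ≤ _ := Submodule.finrank_add_le_finrank_add_finrank _ _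
  have h3 : Module.finrank ℚ D ≤ W.card := finrank_span_finset_le_card W
  have h4 : Module.finrank ℚ E ≤ 1 := by
    have := finrank_span_le_card (R := ℚ) ({Pi.single i₀ (1 : ℚ)} : Set (A → ℚ))
    simpa using this
  have h5 : W.card ≤ hfin.toFinset.card := Finset.card_image_le
  have h6 : τ.encard = (hfin.toFinset.card : ℕ∞) := by
    rw [hfin.encard_eq_coe_toFinset_card]
  rw [h6]
  have : A.card ≤ hfin.toFinset.card + 1 := by omega
  exact_mod_cast this

lemma isCI_of_CI' {S : AddSubmonoid ℕ} (h : CI' S) : IsCompleteIntersection S := by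
  classical
  obtain ⟨ι, _, v, σ, H⟩ := h
  obtain ⟨N, hN⟩ := H.cof
  refine ⟨?_, ?_⟩
  · apply Set.Finite.subset (Set.finite_lt_nat N)
    intro x hx
    by_contra hcon
    exact hx (hN x (by simpa using hcon))
  set A : Finset ℕ := Finset.univ.image v with hA
  have hAirr : ∀ n ∈ A, Irr S n := by
    intro n hn
    rw [hA, Finset.mem_image] at hn
    obtain ⟨i, _, rfl⟩ := hn
    exact H.irr i
  have hAS : (A : Set ℕ) ⊆ S := fun n hn => (hAirr n hn).1
  have hclos : AddSubmonoid.closure (A : Set ℕ) = S := by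
    apply le_antisymm
    · exact AddSubmonoid.closure_le.2 hAS
    · intro x hx
      obtain ⟨c, rfl⟩ := (H.gen x).1 hx
      apply AddSubmonoid.sum_mem
      intro i _
      apply mul_mem_of_mem
      apply AddSubmonoid.subset_closure
      rw [hA]
      simp
  refine ⟨A, ⟨hclos, ?_⟩, ?_⟩
  · intro B hB hBS
    obtain ⟨n, hn, hnB⟩ := Finset.exists_of_ssubset hB
    apply hnB
    have hBsub : (B : Set ℕ) ⊆ S := fun x hx => hAS (hB.1 hx)
    have := mem_of_irr_closure hBsub n (by rw [hBS]; exact (hAirr n hn).1) (hAirr n hn)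
    exact this
  · have hbij : Function.Bijective (fun i : ι => (⟨v i, by rw [hA]; simp⟩ : A)) := by
      constructor
      · intro i j hij
        exact H.inj (congrArg Subtype.val hij)
      · rintro ⟨n, hn⟩
        rw [hA, Finset.mem_image] at hn
        obtain ⟨i, _, rfl⟩ := hn
        exact ⟨i, rfl⟩
    let e : ι ≃ A := Equiv.ofBijective _ hbij
    have he : ∀ i, ((e i : A) : ℕ) = v i := fun i => rfl
    let f : (ι → ℕ) →+ (A → ℕ) :=
      { toFun := fun c a => c (e.symm a)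
        map_zero' := rfl
        map_add' := fun x y => rfl }
    have hf : ∀ c, value A (f c) = val v c := by
      intro c
      show ∑ a : A, c (e.symm a) * (a : ℕ) = ∑ i, c i * v i
      rw [← Equiv.sum_comp e]
      apply Finset.sum_congr rfl
      intro i _
      rw [Equiv.symm_apply_apply, he]
    let σ' : Finset ((A → ℕ) × (A → ℕ)) := σ.image (fun p => (f p.1, f p.2))
    have hpres : IsPresentation A (σ' : Set ((A → ℕ) × (A → ℕ))) := by
      intro x y
      constructor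
      · let g : (A → ℕ) →+ ℕ :=
          { toFun := value A
            map_zero' := by simp [value]
            map_add' := fun x y => by simp [value, add_mul, Finset.sum_add_distrib] }
        have hg : addConGen (fun x y => (x, y) ∈ (σ' : Set ((A → ℕ) × (A → ℕ)))) ≤ AddCon.ker g := by
          apply AddCon.addConGen_le.2
          intro a b hab
          rw [AddCon.ker_rel]
          show value A a = value A b
          simp only [σ', Finset.coe_image, Set.mem_image, Finset.mem_coe, Prod.mk.injEq] at hab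
          obtain ⟨p, hp, h1, h2⟩ := hab
          rw [← h1, ← h2, hf, hf]
          exact H.pres.1 p hp
        intro hxy
        have := hg hxy
        rw [AddCon.ker_rel] at this
        exact this
      · intro hxy
        have hx : f (fun i => x (e i)) = x := by
          funext a
          show x (e (e.symm a)) = x a
          rw [Equiv.apply_symm_apply]
        have hy : f (fun i => y (e i)) = y := by
          funext a
          show y (e (e.symm a)) = y a
          rw [Equiv.apply_symm_apply]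
        have := H.pres.2 (AddCon.comap f (map_add _) (addConGen (fun a b => (a, b) ∈ (σ' : Set ((A → ℕ) × (A → ℕ)))))) ?_
          (fun i => x (e i)) (fun i => y (e i)) ?_
        · rw [AddCon.comap_rel, hx, hy] at this
          exact this
        · intro p hp
          rw [AddCon.comap_rel]
          apply AddConGen.Rel.of
          simp only [σ', Finset.coe_image]
          exact ⟨p, hp, rfl⟩
        · rw [← hf, ← hf, hx, hy]
          exact hxy
    have hcard : A.card = Fintype.card ι := by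
      rw [hA, Finset.card_image_of_injective _ H.inj, Finset.card_univ]
    have hσ' : ((σ' : Set ((A → ℕ) × (A → ℕ))).encard + 1 : ℕ∞) ≤ (A.card : ℕ∞) := by
      rw [Set.encard_coe_eq_coe_finsetCard]
      have h1 : σ'.card ≤ σ.card := Finset.card_image_le
      have h2 := H.card
      have : σ'.card + 1 ≤ A.card := by omega
      exact_mod_cast this
    have hlow := card_le_of_presentation A (fun n hn => (hAirr n hn).2.1)
    refine ⟨σ', ⟨hpres, ?_⟩, ?_⟩
    · intro τ hτ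
      have := hσ'.trans (hlow τ hτ)
      exact (ENat.add_le_add_iff_right (by simp)).1 this
    · exact le_antisymm hσ' (hlow _ hpres)

/-- Every numerical semigroup is a quotient of a complete intersection numerical semigroup. -/
theorem exists_quotient (T : AddSubmonoid ℕ) (hT : IsNumericalSemigroup T) :
    ∃ S : AddSubmonoid ℕ, IsCompleteIntersection S ∧
      ∃ d : ℕ, 1 ≤ d ∧ ∀ x : ℕ, x ∈ T ↔ d * x ∈ S := by
  obtain ⟨S, hS, u, hu, h⟩ := main T hT
  exact ⟨S, isCI_of_CI' hS, u, hu, h⟩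

end Pool.Agent.Helper74.NumSgp
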